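import Pool.Agent.E8helper14.RSE.Final

/-!
# Base change of modular elliptic curves to arbitrary number fields, on the edge line

`E` runs through modular elliptic curves over `ℚ` and `F` is any number field.  The analytic continuation
of `L(E/F, s)` is known only for special fields `F` (for instance, if the normal closure of `F` is
solvable).  The theorem compares the orders of `L(E/F, s)` and `L(E/ℚ, s)` at the points of the line
`Re s = 3/2`.  The definitions are in `Pool.Agent.E8helper14.RSE.Defs`, `Pool.Agent.TH322.BC.Defs` and
`Pool.Agent.Y722.EP.Defs`.
-/

set_option autoImplicit false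

namespace Pool.Agent.E8helper14.RSE.BaseChangeCase

open Pool.Agent.E8helper14.RSE

/-- **Base change on the edge.**  Let `F` be a number field of degree `n` and rank `r`, the number of the
orbits of the Galois group on the pairs of embeddings of `F`, `E_i` modular elliptic curves over `ℚ`, no
two of them isogenous, and `m_{i,τ}` the order of `L(E_i/F, s)` minus the order of `L(E_i/ℚ, s)` at
`3/2 + iτ`, if there are continuations; `w_τ = 1` if `τ = 0` and `w_τ = 2` if `τ ≠ 0`.
1. The sum of the `w_τ m_{i,τ}²` over all `i` and all points of the edge with `m_{i,τ} > 0` is at most
`r - 1`, and smaller than `r - 1` if `n + 1 > 2r`; the same holds for the points with `m_{i,τ} < 0`.  So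
`m_{i,τ}` is somewhere positive for at most `r - 1` of the curves and somewhere negative for at most
`r - 1` of them.
2. If the Galois group acts doubly transitively on the embeddings of `F` and `n ≥ 4`, then
`m_{i,τ} = 0` for all `i` and all points of the edge, the point `3/2` included, and without a continuation
`limsup |log |L(E_i/F, s) / L(E_i/ℚ, s)|| / log(1/ε) ≤ √(1 - 1/n!)` for `s = 3/2 + iτ + ε`, `ε → 0+`. -/
theorem result : BaseChangeInequality ∧ DoublyTransitiveBaseChange :=
  ⟨baseChangeInequality, doublyTransitiveBaseChange⟩

end Pool.Agent.E8helper14.RSE.BaseChangeCase
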