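import Pool.Agent.Y149.LN.BesK

/-! Bessel's inequality with a gain from the values of the function that are too large for the
bounded functions of the system. -/

set_option autoImplicit false

namespace Pool.Agent.E8helper14.RSE

open Complex Filter Topology ComplexConjugate
open Pool.Agent.W540.BE
open Pool.Agent.Y149.CR (EP_mono' abs_EP_le)
open Pool.Agent.Y149.LN (EP_sum1)

variable {P : Type*} {N : P → ℕ}

open Classical in
/-- functions of a function with finitely many values -/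
theorem EP_values (hN : NormSys N) {ε : ℝ} (hε : 0 < ε) (T : P → ℝ) (Y : Finset ℝ)
    (hT : ∀ p, T p ∈ Y) (g : ℝ → ℝ) :
    EP N ε (fun p => g (T p)) =
      ∑ y ∈ Y, g y * EP N ε (fun p => if T p = y then (1 : ℝ) else 0) := by
  have h := EP_sum1 hN hε Y g (fun (y : ℝ) (p : P) => if T p = y then (1 : ℝ) else 0) (B := 1)
    (fun y _ p => by
      beta_reduce
      split_ifs <;> simp)
  rw [← h]
  congr 1
  funext p
  rw [Finset.sum_eq_single (T p)]
  · rw [if_pos rfl, mul_one]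
  · intro y _ hy
    rw [if_neg (Ne.symm hy), mul_zero]
  · intro h
    exact absurd (hT p) h

/-- the pointwise inequality -/
theorem pointwise {t z w : ℝ} (h : |z| ≤ w) :
    2 * (t * z) + (max (|t| - w) 0) ^ 2 ≤ t ^ 2 + z ^ 2 := by
  have h1 : (max (|t| - w) 0) ^ 2 ≤ (t - z) ^ 2 := by
    rw [← sq_abs (t - z)]
    refine pow_le_pow_left₀ (le_max_right _ _) (max_le ?_ (abs_nonneg _)) 2
    have := abs_sub_abs_le_abs_sub t z
    linarith
  nlinarith

open Classical in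
/-- **Bessel's inequality with a gain.** -/
theorem bessel_gain (hN : NormSys N) {lm : ℝ → ℝ} (hlm : Tendsto lm (𝓝[>] 0) atTop)
    (h1 : Tendsto (fun ε : ℝ => EP N ε (fun _ => 1) / lm ε) (𝓝[>] 0) (𝓝 1))
    {A : Type*} (S : Finset A) (u : A → P → ℂ) (T : P → ℝ) (Y : Finset ℝ) (ρ : ℝ → ℝ)
    {bu : ℝ} (hbu0 : 0 ≤ bu)
    (hbu : ∀ a p, ‖u a p‖ ≤ bu) (hY : ∀ y ∈ Y, 0 ≤ y) (hTY : ∀ p, |T p| ∈ Y)
    (hρ : ∀ y ∈ Y, Tendsto (fun ε : ℝ => EP N ε (fun p => if |T p| = y then (1 : ℝ) else 0) / lm ε)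
      (𝓝[>] 0) (𝓝 (ρ y)))
    (hV : ∀ B : ℝ, ∃ C : ℝ, ∀ᶠ ε : ℝ in 𝓝[>] 0, ∀ c : A → ℝ, (∀ a ∈ S, 0 ≤ c a ∧ c a ≤ B) →
      (EP N ε fun p => ‖∑ a ∈ S, (c a : ℂ) * u a p‖ ^ 2) ≤ (∑ a ∈ S, c a ^ 2) * lm ε + C)
    (x : A → ℝ → ℝ) (hx : ∀ a ∈ S, Tendsto (fun ε : ℝ =>
      (EP N ε fun p => T p * (u a p).re) / lm ε - x a ε) (𝓝[>] 0) (𝓝 0))
    {η : ℝ} (hη : 0 < η) :
    ∀ᶠ ε : ℝ in 𝓝[>] 0, ∑ a ∈ S, (max (x a ε) 0) ^ 2 +
      ∑ y ∈ Y, ρ y * (max (y - bu * ∑ a ∈ S, max (x a ε) 0) 0) ^ 2 ≤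
      ∑ y ∈ Y, ρ y * y ^ 2 + η := by
  rcases isEmpty_or_nonempty P with hP | hP
  · have h0 : ∀ ε, EP N ε (fun _ => 1) = 0 := fun ε => by
      unfold EP
      exact tsum_empty
    have h2 : Tendsto (fun ε : ℝ => EP N ε (fun _ => 1) / lm ε) (𝓝[>] 0) (𝓝 0) :=
      tendsto_const_nhds.congr fun ε => by rw [h0, zero_div]
    exact absurd (tendsto_nhds_unique h1 h2) one_ne_zero
  obtain ⟨p₀⟩ := hP
  set bT : ℝ := ∑ y ∈ Y, y with hbTd
  have hbT : ∀ p, |T p| ≤ bT := fun p =>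
    Finset.single_le_sum (f := fun y : ℝ => y) hY (hTY p)
  have hbT0 : 0 ≤ bT := (abs_nonneg _).trans (hbT p₀)
  set Z : ℝ := 2 * (bT * bu) + 1 with hZd
  have hZ0 : 0 ≤ Z := by positivity
  obtain ⟨C, hC⟩ := hV Z
  set δ : ℝ := η / (8 * (S.card * Z + 1)) with hδ
  have hδ0 : 0 < δ := by positivity
  set R : ℝ := ∑ y ∈ Y, y ^ 2 with hR
  have hR0 : 0 ≤ R := Finset.sum_nonneg fun y _ => sq_nonneg y
  set κ : ℝ := η / (8 * (R + 1)) with hκ
  have hκ0 : 0 < κ := by positivity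
  have ev2 : ∀ᶠ ε : ℝ in 𝓝[>] 0, ∀ a ∈ S,
      |(EP N ε fun p => T p * (u a p).re) / lm ε - x a ε| ≤ min δ 1 := by
    rw [Filter.eventually_all_finset]
    intro a ha
    have h3 := (hx a ha).abs
    rw [abs_zero] at h3
    filter_upwards [h3.eventually_lt_const (lt_min hδ0 one_pos)] with ε hε using hε.le
  have ev3 : ∀ᶠ ε : ℝ in 𝓝[>] 0, ∀ y ∈ Y,
      |EP N ε (fun p => if |T p| = y then (1 : ℝ) else 0) / lm ε - ρ y| ≤ κ := by
    rw [Filter.eventually_all_finset]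
    intro y hy
    filter_upwards [(Metric.tendsto_nhds.1 (hρ y hy)) κ hκ0] with ε hε
    rw [Real.dist_eq] at hε
    exact hε.le
  filter_upwards [hC, ev2, ev3, hlm.eventually_gt_atTop 0, h1.eventually_lt_const
    (by norm_num : (1 : ℝ) < 2), hlm.eventually_ge_atTop (4 * |C| / η), self_mem_nhdsWithin]
    with ε e1 e2 e3 e4 e5 e7 e6
  have hε : (0 : ℝ) < ε := e6
  set w : A → ℝ := fun a => max (x a ε) 0 with hw
  have hw0 : ∀ a, 0 ≤ w a := fun a => le_max_right _ _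
  have hwx : ∀ a, w a * x a ε = w a ^ 2 := by
    intro a
    rw [hw]
    simp only
    rcases le_total (x a ε) 0 with h2 | h2
    · rw [max_eq_right h2]; ring
    · rw [max_eq_left h2]; ring
  have hTu : ∀ a p, |T p * (u a p).re| ≤ bT * bu := fun a p => by
    rw [abs_mul]
    exact mul_le_mul (hbT p) ((Complex.abs_re_le_norm _).trans (hbu a p))
      (abs_nonneg _) hbT0
  have hwY : ∀ a ∈ S, w a ≤ Z := by
    intro a ha
    refine max_le ?_ hZ0
    have h2 := e2 a ha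
    have h3 : |EP N ε fun p => T p * (u a p).re| ≤ (bT * bu) * EP N ε fun _ => 1 :=
      abs_EP_le hN hε (hTu a)
    have h4 : |(EP N ε fun p => T p * (u a p).re) / lm ε| ≤ 2 * (bT * bu) := by
      rw [abs_div, abs_of_pos e4, div_le_iff₀ e4]
      rw [div_lt_iff₀ e4] at e5
      have h5 : 0 ≤ bT * bu := by positivity
      nlinarith
    have h5 := (abs_le.1 (h2.trans (min_le_right _ _))).1
    have h6 := (abs_le.1 h4).2
    linarith
  have hwc : ∀ a ∈ S, 0 ≤ w a ∧ w a ≤ Z := fun a ha => ⟨hw0 a, hwY a ha⟩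
  have e1' := e1 w hwc
  set Q : ℝ := ∑ a ∈ S, w a ^ 2 with hQ
  set W : ℝ := ∑ a ∈ S, w a with hW
  have hW0 : 0 ≤ W := Finset.sum_nonneg fun a _ => hw0 a
  -- the pointwise inequality
  have hpt : ∀ p, 2 * (∑ a ∈ S, w a * (T p * (u a p).re)) + (max (|T p| - bu * W) 0) ^ 2 ≤
      T p ^ 2 + ‖∑ a ∈ S, (w a : ℂ) * u a p‖ ^ 2 := by
    intro p
    set V := ∑ a ∈ S, (w a : ℂ) * u a p with hV'
    have q1 : ∑ a ∈ S, w a * (T p * (u a p).re) = T p * V.re := by
      rw [hV', Complex.re_sum, Finset.mul_sum]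
      refine Finset.sum_congr rfl fun a _ => ?_
      rw [Complex.re_ofReal_mul]
      ring
    have q2 : V.re ^ 2 ≤ ‖V‖ ^ 2 := by
      rw [← sq_abs V.re]
      exact pow_le_pow_left₀ (abs_nonneg _) (Complex.abs_re_le_norm _) 2
    have q3 : |V.re| ≤ bu * W := by
      refine (Complex.abs_re_le_norm _).trans ((norm_sum_le _ _).trans ?_)
      rw [hW, Finset.mul_sum]
      refine Finset.sum_le_sum fun a _ => ?_
      rw [norm_mul, Complex.norm_real, Real.norm_of_nonneg (hw0 a), mul_comm]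
      exact mul_le_mul_of_nonneg_right (hbu a p) (hw0 a)
    have q4 := pointwise (t := T p) q3
    rw [q1]
    linarith
  have hZb : ∀ p, ‖∑ a ∈ S, (w a : ℂ) * u a p‖ ≤ S.card * (Z * bu) := by
    intro p
    refine (norm_sum_le _ _).trans ((Finset.sum_le_card_nsmul _ _ (Z * bu) fun a ha => ?_).trans
      (le_of_eq (nsmul_eq_mul _ _)))
    rw [norm_mul, Complex.norm_real, Real.norm_of_nonneg (hw0 a)]
    exact mul_le_mul (hwY a ha) (hbu a p) (norm_nonneg _) hZ0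
  have g1 : ∀ p, |2 * (∑ a ∈ S, w a * (T p * (u a p).re))| ≤ 2 * (S.card * (Z * (bT * bu))) := by
    intro p
    rw [abs_mul, abs_of_pos (by norm_num : (0 : ℝ) < 2)]
    refine mul_le_mul_of_nonneg_left ((Finset.abs_sum_le_sum_abs _ _).trans
      ((Finset.sum_le_card_nsmul _ _ (Z * (bT * bu)) fun a ha => ?_).trans
      (le_of_eq (nsmul_eq_mul _ _)))) (by norm_num)
    rw [abs_mul, abs_of_nonneg (hw0 a)]
    exact mul_le_mul (hwY a ha) (hTu a p) (abs_nonneg _) hZ0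
  have g2 : ∀ p, |T p ^ 2| ≤ bT ^ 2 := by
    intro p
    rw [abs_pow]
    exact pow_le_pow_left₀ (abs_nonneg _) (hbT p) 2
  have g3 : ∀ p, |‖∑ a ∈ S, (w a : ℂ) * u a p‖ ^ 2| ≤ (S.card * (Z * bu)) ^ 2 := by
    intro p
    rw [abs_of_nonneg (sq_nonneg _)]
    exact pow_le_pow_left₀ (norm_nonneg _) (hZb p) 2
  have g4 : ∀ p, |(max (|T p| - bu * W) 0) ^ 2| ≤ bT ^ 2 := by
    intro p
    rw [abs_of_nonneg (sq_nonneg _)]
    refine pow_le_pow_left₀ (le_max_right _ _) (max_le ?_ hbT0) 2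
    have := hbT p
    have h2 : 0 ≤ bu * W := by positivity
    linarith
  have h2 := EP_mono' hN hε (fun p => (abs_add_le _ _).trans (add_le_add (g1 p) (g4 p)))
    (fun p => (abs_add_le _ _).trans (add_le_add (g2 p) (g3 p))) hpt
  rw [EP_add hN hε g1 g4, EP_const_mul, EP_add hN hε g2 g3,
    EP_sum1 hN hε S w (fun a p => T p * (u a p).re) (fun a _ p => hTu a p)] at h2
  -- the values
  set D : ℝ → ℝ := fun y => EP N ε (fun p => if |T p| = y then (1 : ℝ) else 0) with hD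
  have v1 : EP N ε (fun p => (max (|T p| - bu * W) 0) ^ 2) =
      ∑ y ∈ Y, (max (y - bu * W) 0) ^ 2 * D y :=
    EP_values hN hε (fun p => |T p|) Y hTY fun y => (max (y - bu * W) 0) ^ 2
  have v2 : EP N ε (fun p => T p ^ 2) = ∑ y ∈ Y, y ^ 2 * D y := by
    have h := EP_values hN hε (fun p => |T p|) Y hTY fun y => y ^ 2
    simp only [sq_abs] at h
    exact h
  rw [v1, v2] at h2
  have hsq : ∀ y ∈ Y, (max (y - bu * W) 0) ^ 2 ≤ y ^ 2 := by
    intro y hy
    refine pow_le_pow_left₀ (le_max_right _ _) (max_le ?_ (hY y hy)) 2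
    have h2 : 0 ≤ bu * W := by positivity
    linarith
  -- division by `lm`
  have h3 : 2 * ∑ a ∈ S, w a * ((EP N ε fun p => T p * (u a p).re) / lm ε) +
      ∑ y ∈ Y, (max (y - bu * W) 0) ^ 2 * (D y / lm ε) ≤
      ∑ y ∈ Y, y ^ 2 * (D y / lm ε) + Q + |C| / lm ε := by
    have q1 : 2 * ∑ a ∈ S, w a * ((EP N ε fun p => T p * (u a p).re) / lm ε) =
        (2 * ∑ a ∈ S, w a * EP N ε fun p => T p * (u a p).re) / lm ε := by
      rw [mul_div_assoc, Finset.sum_div]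
      congr 1
      exact Finset.sum_congr rfl fun a _ => by rw [mul_div_assoc]
    have q2 : ∀ g : ℝ → ℝ, ∑ y ∈ Y, g y * (D y / lm ε) = (∑ y ∈ Y, g y * D y) / lm ε := by
      intro g
      rw [Finset.sum_div]
      exact Finset.sum_congr rfl fun y _ => by rw [mul_div_assoc]
    have q3 := q2 fun y => (max (y - bu * W) 0) ^ 2
    have q4 := q2 fun y => y ^ 2
    rw [q1, q3, q4, ← add_div, div_le_iff₀ e4]
    have q5 : ∀ s : ℝ, (s / lm ε + Q + |C| / lm ε) * lm ε = s + (Q * lm ε + |C|) := by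
      intro s
      field_simp
      ring
    rw [q5]
    have := le_abs_self C
    linarith
  have h4 : Q - S.card * (Z * δ) ≤ ∑ a ∈ S, w a * ((EP N ε fun p => T p * (u a p).re) / lm ε) := by
    have q1 : Q - S.card * (Z * δ) = ∑ a ∈ S, (w a * x a ε - Z * δ) := by
      rw [Finset.sum_sub_distrib, Finset.sum_const, nsmul_eq_mul, hQ]
      congr 1
      exact Finset.sum_congr rfl fun a _ => (hwx a).symm
    rw [q1]
    refine Finset.sum_le_sum fun a ha => ?_
    have q2 := (abs_le.1 ((e2 a ha).trans (min_le_left _ _))).1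
    have q3 : w a * (x a ε - (EP N ε fun p => T p * (u a p).re) / lm ε) ≤ Z * δ := by
      calc w a * (x a ε - (EP N ε fun p => T p * (u a p).re) / lm ε) ≤ w a * δ :=
            mul_le_mul_of_nonneg_left (by linarith) (hw0 a)
        _ ≤ Z * δ := mul_le_mul_of_nonneg_right (hwY a ha) hδ0.le
    nlinarith
  have h5 : (S.card : ℝ) * (Z * δ) ≤ η / 8 := by
    have q0 : 0 ≤ (S.card : ℝ) * Z := by positivity
    have q1 : (S.card : ℝ) * (Z * δ) = η / 8 * ((S.card * Z) / (S.card * Z + 1)) := by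
      rw [hδ]
      field_simp
    rw [q1]
    have q2 : (S.card : ℝ) * Z / (S.card * Z + 1) ≤ 1 := by
      rw [div_le_one (by positivity)]
      linarith
    nlinarith
  have h6 : |C| / lm ε ≤ η / 4 := by
    rw [div_le_iff₀ e4]
    rw [div_le_iff₀ hη] at e7
    linarith
  have h7 : R * κ ≤ η / 8 := by
    have q1 : R * κ = η / 8 * (R / (R + 1)) := by
      rw [hκ]
      field_simp
    rw [q1]
    have q2 : R / (R + 1) ≤ 1 := by
      rw [div_le_one (by positivity)]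
      linarith
    nlinarith
  have h8 : ∑ y ∈ Y, y ^ 2 * (D y / lm ε) ≤ ∑ y ∈ Y, ρ y * y ^ 2 + R * κ := by
    rw [hR, Finset.sum_mul, ← Finset.sum_add_distrib]
    refine Finset.sum_le_sum fun y hy => ?_
    have q1 := (abs_le.1 (e3 y hy)).2
    have q2 := mul_le_mul_of_nonneg_left q1 (sq_nonneg y)
    rw [hD]
    simp only
    linarith
  have h9 : ∑ y ∈ Y, ρ y * (max (y - bu * W) 0) ^ 2 - R * κ ≤
      ∑ y ∈ Y, (max (y - bu * W) 0) ^ 2 * (D y / lm ε) := by
    rw [hR, Finset.sum_mul, ← Finset.sum_sub_distrib]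
    refine Finset.sum_le_sum fun y hy => ?_
    have q1 := (abs_le.1 (e3 y hy)).1
    have q2 := mul_le_mul_of_nonneg_left q1 (sq_nonneg (max (y - bu * W) 0))
    have q3 := mul_le_mul_of_nonneg_right (hsq y hy) hκ0.le
    rw [hD]
    simp only
    linarith
  linarith

end Pool.Agent.E8helper14.RSE
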