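import Pool.Agent.E8helper14.RSE.Curve
import Pool.Agent.E8helper14.RSE.Bes
import Pool.Agent.Y149.LN.Fam

/-! The inequality for the sizes of modular elliptic curves over the rationals. -/

set_option autoImplicit false

namespace Pool.Agent.E8helper14.RSE

open Complex Filter Topology ComplexConjugate NumberField IsDedekindDomain Asymptotics
  Pool.Agent.W401.Cheb Pool.Agent.W540.BE Pool.Agent.W353.L1 Pool.Agent.W353.NF
  Pool.Agent.TH322.BC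
open Pool.Agent.W353.TP (HX sysH LL)
open Pool.Agent.W353.AB (Sy syE)
open Pool.Agent.H341R2 (lam lam_tendsto)
open Pool.Agent.Y722.EP (IsModular NotIsogenous rE abs_rE)
open Pool.Agent.Y149.LN (uK norm_uK uK_re sumK)

/-- the weight of a height: the heights `τ` and `-τ` are counted together -/
noncomputable def wt (τ : ℝ) : ℝ := by
  classical
  exact if τ = 0 then 1 else 2

theorem wt_pos (τ : ℝ) : 0 < wt τ := by
  classical
  unfold wt
  split_ifs <;> norm_num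

/-- `q^{iτ}` and `q^{-iτ}` have the same real part -/
theorem cz_neg {K : Type} [Field K] [NumberField K] (τ : ℝ) (v : HeightOneSpectrum (𝓞 K)) :
    cz (-τ) v = cz τ v := by
  unfold cz zz
  have h2 := two_le_nm v
  have hq : 0 < nm K v := by omega
  have h := conj_cpow_I hq τ
  have e1 : ((nm K v : ℕ) : ℂ) ^ (-(((-τ : ℝ) : ℂ) * I)) = conj (((nm K v : ℕ) : ℂ) ^ (-(τ * I))) := by
    rw [h]
    congr 1
    push_cast
    ring
  rw [e1, Complex.conj_re]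

/-- sums over the heights and their negatives -/
theorem sum_sym {ι : Type*} [DecidableEq (ι × ℝ)] (S : Finset (ι × ℝ)) (hS : ∀ x ∈ S, 0 ≤ x.2)
    (f : ι × ℝ → ℝ) :
    ∑ x ∈ S ∪ S.image (fun x => (x.1, -x.2)), f (x.1, |x.2|) = ∑ x ∈ S, wt x.2 * f x := by
  classical
  set g : ι × ℝ → ι × ℝ := fun x => (x.1, -x.2) with hg
  have hinj : Function.Injective g := by
    intro x y h
    rw [hg] at h
    simp only [Prod.mk.injEq, neg_inj] at h
    exact Prod.ext h.1 h.2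
  have h1 : S ∪ S.image g = S ∪ (S.filter fun x => x.2 ≠ 0).image g := by
    ext x
    simp only [Finset.mem_union, Finset.mem_image, Finset.mem_filter]
    constructor
    · rintro (h | ⟨y, hy, rfl⟩)
      · exact Or.inl h
      · by_cases h0 : y.2 = 0
        · left
          have : g y = y := by
            rw [hg]
            exact Prod.ext rfl (by simp [h0])
          rwa [this]
        · exact Or.inr ⟨y, ⟨hy, h0⟩, rfl⟩
    · rintro (h | ⟨y, ⟨hy, _⟩, rfl⟩)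
      · exact Or.inl h
      · exact Or.inr ⟨y, hy, rfl⟩
  have hdis : Disjoint S ((S.filter fun x => x.2 ≠ 0).image g) := by
    rw [Finset.disjoint_left]
    intro x hx hx'
    rw [Finset.mem_image] at hx'
    obtain ⟨y, hy, rfl⟩ := hx'
    rw [Finset.mem_filter] at hy
    have h2 := hS _ hx
    have h3 := hS _ hy.1
    have h4 : (g y).2 = -y.2 := rfl
    rw [h4] at h2
    exact hy.2 (le_antisymm (by linarith) h3)
  rw [h1, Finset.sum_union hdis, Finset.sum_image (fun x _ y _ h => hinj h)]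
  have h2 : ∀ x ∈ S, f (x.1, |x.2|) = f x := by
    intro x hx
    rw [abs_of_nonneg (hS x hx)]
  have h3 : ∀ x ∈ S.filter (fun x => x.2 ≠ 0), f ((g x).1, |(g x).2|) = f x := by
    intro x hx
    have h4 : (g x).2 = -x.2 := rfl
    have h5 : (g x).1 = x.1 := rfl
    rw [h4, h5, abs_neg, abs_of_nonneg (hS x (Finset.mem_filter.1 hx).1)]
  rw [Finset.sum_congr rfl h2, Finset.sum_congr rfl h3, Finset.sum_filter,
    ← Finset.sum_add_distrib]
  refine Finset.sum_congr rfl fun x _ => ?_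
  unfold wt
  by_cases h : x.2 = 0
  · rw [if_pos h, if_neg (by simpa using h)]
    ring
  · rw [if_neg h, if_pos h]
    ring

/-- **The inequality for the sizes.** -/
theorem core (U : Subgroup (GK ℚ)) [U.Normal] (hU : IsOpen (U : Set (GK ℚ)))
    [Finite (GK ℚ ⧸ U)] (ψ : GK ℚ → ℝ)
    (hψU : ∀ σ, ∀ u ∈ U, ψ (σ * u) = ψ σ) (hc : ∀ σ ρ, ψ (ρ * σ * ρ⁻¹) = ψ σ)
    (hi : ∀ σ, ψ σ⁻¹ = ψ σ) {B : ℝ} (hB : ∀ σ, |ψ σ| ≤ B)
    (σ : HeightOneSpectrum (𝓞 ℚ) → GK ℚ) (hσ : ∀ v, IsFrob v (σ v))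
    {ι : Type*} {a b : ι → ℤ} (S : Finset (ι × ℝ)) (hS : ∀ x ∈ S, 0 ≤ x.2)
    (hΔ : ∀ x ∈ S, 4 * a x.1 ^ 3 + 27 * b x.1 ^ 2 ≠ 0)
    (hmod : ∀ x ∈ S, IsModular (a x.1) (b x.1))
    (hne : ∀ x ∈ S, ∀ y ∈ S, x.1 ≠ y.1 → NotIsogenous (a x.1) (b x.1) (a y.1) (b y.1))
    (X : ι × ℝ → ℝ → ℝ)
    (hX : ∀ x ∈ S, SzH (TT (syE (cP (a x.1)) (cQ (b x.1)))) (fun v => ψ (σ v) * cz x.2 v) (X x))
    {η : ℝ} (hη : 0 < η) :
    ∀ᶠ ε : ℝ in 𝓝[>] 0, ∑ x ∈ S, wt x.2 * (max (X x ε) 0) ^ 2 +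
      avR U (fun q => (max (|ψ q.out| - 2 * ∑ x ∈ S, wt x.2 * max (X x ε) 0) 0) ^ 2) ≤
      avR U (fun q => (ψ q.out) ^ 2) + η := by
  classical
  have hlim : ∀ x ∈ S, Tendsto (fun ε : ℝ => (EP (nm ℚ) ε fun v => ψ (σ v) * (uK a b x v).re) /
      lam ε - X x ε) (𝓝[>] 0) (𝓝 0) := by
    intro x hx
    obtain ⟨S₀, hS₀⟩ := exists_exc (hΔ x hx)
    have hT := abs_TT (syE (cP (a x.1)) (cQ (b x.1)))
    rw [syE_b] at hT
    have h := lim_of_SzH (K := ℚ) (r := fun v => rE (a x.1) (b x.1) v) S₀ (N := 2) (B := B)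
      (by norm_num) hT (fun v => abs_rE _ _ v) (fun v => by
        rw [abs_mul]
        calc |ψ (σ v)| * |cz x.2 v| ≤ B * 1 :=
              mul_le_mul (hB _) (abs_cz _ _) (abs_nonneg _) ((abs_nonneg _).trans (hB (σ v)))
          _ = B := mul_one _) hS₀ (hX x hx)
    refine h.congr fun ε => ?_
    congr 3
    funext v
    rw [uK_re]
    change rE (a x.1) (b x.1) v * (ψ (σ v) * cz x.2 v) =
      ψ (σ v) * (rE (a x.1) (b x.1) v * cz x.2 v)
    ring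
  set S' : Finset (ι × ℝ) := S ∪ S.image (fun x => (x.1, -x.2)) with hS'
  have hmem : ∀ x ∈ S', (x.1, |x.2|) ∈ S := by
    intro x hx
    rw [hS', Finset.mem_union, Finset.mem_image] at hx
    rcases hx with h | ⟨y, hy, rfl⟩
    · have : (x.1, |x.2|) = x := Prod.ext rfl (abs_of_nonneg (hS x h))
      rw [this]
      exact h
    · have : ((y.1, -y.2).1, |(y.1, -y.2).2|) = y := Prod.ext rfl (by
        simp only [abs_neg]
        exact abs_of_nonneg (hS y hy))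
      rw [this]
      exact hy
  have hlim' : ∀ x ∈ S', Tendsto (fun ε : ℝ =>
      (EP (nm ℚ) ε fun v => ψ (σ v) * (uK a b x v).re) / lam ε -
        X (x.1, |x.2|) ε) (𝓝[>] 0) (𝓝 0) := by
    intro x hx
    refine (hlim _ (hmem x hx)).congr fun ε => ?_
    congr 3
    funext v
    rw [uK_re, uK_re]
    have e : cz |x.2| v = cz x.2 v := by
      rcases abs_choice x.2 with h | h
      · rw [h]
      · rw [h, cz_neg]
    change ψ (σ v) * (rE (a x.1) (b x.1) v * cz |x.2| v) =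
      ψ (σ v) * (rE (a x.1) (b x.1) v * cz x.2 v)
    rw [e]
  have hV : ∀ B : ℝ, ∃ C : ℝ, ∀ᶠ ε : ℝ in 𝓝[>] 0, ∀ c : ι × ℝ → ℝ,
      (∀ x ∈ S', 0 ≤ c x ∧ c x ≤ B) →
      (EP (nm ℚ) ε fun v => ‖∑ x ∈ S', (c x : ℂ) * uK a b x v‖ ^ 2) ≤
        (∑ x ∈ S', c x ^ 2) * lam ε + C := by
    intro B
    obtain ⟨C, hC⟩ := sumK (K := ℚ) (a := a) (b := b) S' (fun x hx => hΔ (x.1, |x.2|) (hmem x hx))
      (fun x hx => hmod (x.1, |x.2|) (hmem x hx))
      (fun x hx y hy hxy => hne (x.1, |x.2|) (hmem x hx) (y.1, |y.2|) (hmem y hy) hxy) B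
    refine ⟨C, hC.mono fun ε h c hcc => ?_⟩
    have h1 := h c hcc
    rw [Module.finrank_self, Nat.cast_one, one_mul] at h1
    exact h1
  have key := bessel_gain (normSys (F := ℚ)) lam_tendsto (EP_one ℚ) S' (uK a b)
    (fun v => ψ (σ v)) (vals U ψ) (dens U ψ) (bu := 2) (by norm_num) (fun x v => norm_uK x v)
    (fun y hy => vals_nonneg hy) (fun v => mem_vals hψU (σ v))
    (fun y _ => dens_lim U hU ψ hψU hc hi σ hσ y) hV (fun x => X (x.1, |x.2|)) hlim' hη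
  filter_upwards [key] with ε h
  have e1 := sum_sym S hS fun x => (max (X x ε) 0) ^ 2
  have e2 := sum_sym S hS fun x => max (X x ε) 0
  rw [e1, e2, dens_sum U ψ fun y => (max (y - 2 * ∑ x ∈ S, wt x.2 * max (X x ε) 0) 0) ^ 2,
    dens_sum U ψ fun y => y ^ 2] at h
  simp only [sq_abs] at h
  exact h

/-- the mean value is continuous -/
theorem avR_tendsto {K : Type} [Field K] [NumberField K] (U : Subgroup (GK K))
    [Finite (GK K ⧸ U)] {f : ℝ → GK K ⧸ U → ℝ} {g : GK K ⧸ U → ℝ} {l : Filter ℝ}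
    (h : ∀ q, Tendsto (fun ε => f ε q) l (𝓝 (g q))) :
    Tendsto (fun ε => avR U (f ε)) l (𝓝 (avR U g)) := by
  classical
  let _ : Fintype (GK K ⧸ U) := Fintype.ofFinite _
  unfold avR
  simp only [finsum_eq_sum_of_fintype]
  exact (tendsto_finsetSum _ fun q _ => h q).const_mul _

/-- **The inequality for the limits.** -/
theorem core_lim (U : Subgroup (GK ℚ)) [U.Normal] (hU : IsOpen (U : Set (GK ℚ)))
    [Finite (GK ℚ ⧸ U)] (ψ : GK ℚ → ℝ)
    (hψU : ∀ σ, ∀ u ∈ U, ψ (σ * u) = ψ σ) (hc : ∀ σ ρ, ψ (ρ * σ * ρ⁻¹) = ψ σ)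
    (hi : ∀ σ, ψ σ⁻¹ = ψ σ) {B : ℝ} (hB : ∀ σ, |ψ σ| ≤ B)
    (σ : HeightOneSpectrum (𝓞 ℚ) → GK ℚ) (hσ : ∀ v, IsFrob v (σ v))
    {ι : Type*} {a b : ι → ℤ} (S : Finset (ι × ℝ)) (hS : ∀ x ∈ S, 0 ≤ x.2)
    (hΔ : ∀ x ∈ S, 4 * a x.1 ^ 3 + 27 * b x.1 ^ 2 ≠ 0)
    (hmod : ∀ x ∈ S, IsModular (a x.1) (b x.1))
    (hne : ∀ x ∈ S, ∀ y ∈ S, x.1 ≠ y.1 → NotIsogenous (a x.1) (b x.1) (a y.1) (b y.1))
    (X : ι × ℝ → ℝ → ℝ)
    (hX : ∀ x ∈ S, SzH (TT (syE (cP (a x.1)) (cQ (b x.1)))) (fun v => ψ (σ v) * cz x.2 v) (X x))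
    (L : ι × ℝ → ℝ) (hL : ∀ x ∈ S, Tendsto (X x) (𝓝[>] 0) (𝓝 (L x))) :
    ∑ x ∈ S, wt x.2 * (max (L x) 0) ^ 2 +
      avR U (fun q => (max (|ψ q.out| - 2 * ∑ x ∈ S, wt x.2 * max (L x) 0) 0) ^ 2) ≤
      avR U (fun q => (ψ q.out) ^ 2) := by
  refine le_of_forall_pos_le_add fun η hη => ?_
  have h := core U hU ψ hψU hc hi hB σ hσ S hS hΔ hmod hne X hX hη
  have c1 : ∀ x ∈ S, Tendsto (fun ε => max (X x ε) 0) (𝓝[>] 0) (𝓝 (max (L x) 0)) :=
    fun x hx => (hL x hx).max tendsto_const_nhds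
  have h1 : Tendsto (fun ε => ∑ x ∈ S, wt x.2 * (max (X x ε) 0) ^ 2) (𝓝[>] 0)
      (𝓝 (∑ x ∈ S, wt x.2 * (max (L x) 0) ^ 2)) :=
    tendsto_finsetSum _ fun x hx => ((c1 x hx).pow 2).const_mul _
  have h2 : Tendsto (fun ε => ∑ x ∈ S, wt x.2 * max (X x ε) 0) (𝓝[>] 0)
      (𝓝 (∑ x ∈ S, wt x.2 * max (L x) 0)) :=
    tendsto_finsetSum _ fun x hx => (c1 x hx).const_mul _
  have h3 : Tendsto (fun ε => avR U (fun q =>
      (max (|ψ q.out| - 2 * ∑ x ∈ S, wt x.2 * max (X x ε) 0) 0) ^ 2)) (𝓝[>] 0)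
      (𝓝 (avR U (fun q => (max (|ψ q.out| - 2 * ∑ x ∈ S, wt x.2 * max (L x) 0) 0) ^ 2))) :=
    avR_tendsto U fun q => ((tendsto_const_nhds.sub (h2.const_mul 2)).max tendsto_const_nhds).pow 2
  exact le_of_tendsto (h1.add h3) h

end Pool.Agent.E8helper14.RSE
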