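import Pool.Agent.E8helper14.RSE.Mean
import Pool.Agent.Y722.EP.Point
import Pool.Agent.W353.NF.EC

/-! The normalised traces of Frobenius of `y² = x³ + a x + b` over the rationals. -/

set_option autoImplicit false

namespace Pool.Agent.E8helper14.RSE

open Complex Filter Topology ComplexConjugate NumberField IsDedekindDomain Asymptotics
  Pool.Agent.W401.Cheb Pool.Agent.W540.BE Pool.Agent.W353.L1 Pool.Agent.W353.NF
open Pool.Agent.W353.TP (HX sysH LL)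
open Pool.Agent.W353.AB (Sy syE tEH csH)
open Pool.Agent.H341R2 (lam)
open Pool.Agent.H341R2.EC
open Pool.Agent.H921R2.TatePole (kerPrime)
open Pool.Agent.Y722.EP (points trace rE abs_rE rE_eq trace_kerPrime)

/-- the elliptic curve `y² = x³ + a x + b` -/
noncomputable def cv (a b : ℤ) : WeierstrassCurve ℚ where
  a₁ := 0
  a₂ := 0
  a₃ := 0
  a₄ := a
  a₆ := b

/-- the integral multiples of `c₄` and `c₆` -/
noncomputable def cP (a : ℤ) : 𝓞 ℚ := ((-48 * a : ℤ) : 𝓞 ℚ)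

noncomputable def cQ (b : ℤ) : 𝓞 ℚ := ((-864 * b : ℤ) : 𝓞 ℚ)

theorem coe_cP (a b : ℤ) : ((cP a : 𝓞 ℚ) : ℚ) = ((1 : 𝓞 ℚ) : ℚ) ^ 4 * (cv a b).c₄ := by
  have h1 : ((1 : 𝓞 ℚ) : ℚ) = 1 := map_one (algebraMap (𝓞 ℚ) ℚ)
  have h2 : ((cP a : 𝓞 ℚ) : ℚ) = ((-48 * a : ℤ) : ℚ) := map_intCast (algebraMap (𝓞 ℚ) ℚ) _
  rw [h1, h2]
  simp only [WeierstrassCurve.c₄, WeierstrassCurve.b₂, WeierstrassCurve.b₄, cv]
  push_cast
  ring

theorem coe_cQ (a b : ℤ) : ((cQ b : 𝓞 ℚ) : ℚ) = ((1 : 𝓞 ℚ) : ℚ) ^ 6 * (cv a b).c₆ := by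
  have h1 : ((1 : 𝓞 ℚ) : ℚ) = 1 := map_one (algebraMap (𝓞 ℚ) ℚ)
  have h2 : ((cQ b : 𝓞 ℚ) : ℚ) = ((-864 * b : ℤ) : ℚ) := map_intCast (algebraMap (𝓞 ℚ) ℚ) _
  rw [h1, h2]
  simp only [WeierstrassCurve.c₆, WeierstrassCurve.b₂, WeierstrassCurve.b₄, WeierstrassCurve.b₆,
    cv]
  push_cast
  ring

theorem disc_eq (a b : ℤ) :
    (cP a) ^ 3 - (cQ b) ^ 2 = ((-27648 * (4 * a ^ 3 + 27 * b ^ 2) : ℤ) : 𝓞 ℚ) := by
  unfold cP cQ
  push_cast
  ring

theorem disc_ne {a b : ℤ} (h : 4 * a ^ 3 + 27 * b ^ 2 ≠ 0) : (cP a) ^ 3 - (cQ b) ^ 2 ≠ 0 := by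
  rw [disc_eq]
  exact Int.cast_ne_zero.2 (mul_ne_zero (by norm_num) h)

/-- the number of the points and the character sum -/
theorem points_eq (p : ℕ) [Fact p.Prime] (h6 : (6 : ZMod p) ≠ 0) (a b : ℤ) :
    (points (ZMod p) a b : ℤ) = p + 1 + csum ((-48 * a : ℤ) : ZMod p) ((-864 * b : ℤ) : ZMod p) := by
  classical
  have h2 : (2 : ZMod p) ≠ 0 := by
    intro h
    apply h6
    have : (6 : ZMod p) = 2 * 3 := by norm_num
    rw [this, h, zero_mul]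
  have hchar : ringChar (ZMod p) ≠ 2 := by
    intro h
    apply h2
    have := ringChar.Nat.cast_ringChar (R := ZMod p)
    rw [h] at this
    exact_mod_cast this
  set f : ZMod p → ZMod p := fun x => x ^ 3 + a * x + b with hf
  have e1 : Nat.card {P : ZMod p × ZMod p // P.2 ^ 2 = P.1 ^ 3 + a * P.1 + b} =
      ∑ x : ZMod p, Fintype.card {y : ZMod p // y ^ 2 = f x} := by
    rw [← Fintype.card_sigma, Nat.card_eq_fintype_card]
    exact Fintype.card_congr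
      { toFun := fun P => ⟨P.1.1, ⟨P.1.2, P.2⟩⟩
        invFun := fun P => ⟨(P.1, P.2.1), P.2.2⟩
        left_inv := fun P => rfl
        right_inv := fun P => rfl }
  have e2 : ∀ x : ZMod p, ((Fintype.card {y : ZMod p // y ^ 2 = f x} : ℕ) : ℤ) =
      quadraticChar (ZMod p) (f x) + 1 := by
    intro x
    rw [← quadraticChar_card_sqrts hchar (f x), Fintype.card_subtype]
    congr 2
    ext y
    simp
  have e3 : csum ((-48 * a : ℤ) : ZMod p) ((-864 * b : ℤ) : ZMod p) =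
      ∑ x : ZMod p, quadraticChar (ZMod p) (f x) := by
    unfold csum
    have h36 : (36 : ZMod p) ≠ 0 := by
      have : (36 : ZMod p) = 6 * 6 := by norm_num
      rw [this]
      exact mul_ne_zero h6 h6
    have h216 : (216 : ZMod p) ≠ 0 := by
      have : (216 : ZMod p) = 6 * (6 * 6) := by norm_num
      rw [this]
      exact mul_ne_zero h6 (mul_ne_zero h6 h6)
    refine (Fintype.sum_bijective (fun x : ZMod p => 36 * x)
      (mulLeft_bijective₀ (36 : ZMod p) h36) _ _ fun x => ?_).symm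
    rw [cub_eval]
    have e4 : (36 * x) ^ 3 - 27 * ((-48 * a : ℤ) : ZMod p) * (36 * x) -
        54 * ((-864 * b : ℤ) : ZMod p) = 216 ^ 2 * f x := by
      rw [hf]
      push_cast
      ring
    rw [e4, map_mul, map_pow, quadraticChar_sq_one h216, one_mul]
  unfold points
  rw [e1, e3]
  push_cast
  rw [Finset.sum_congr rfl fun x _ => e2 x, Finset.sum_add_distrib]
  simp only [Finset.sum_const, Finset.card_univ, ZMod.card, nsmul_eq_mul, mul_one]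
  ring

/-- the exceptional primes -/
theorem exists_exc {a b : ℤ} (h : 4 * a ^ 3 + 27 * b ^ 2 ≠ 0) :
    ∃ S : Finset (HeightOneSpectrum (𝓞 ℚ)), ∀ x : HX ℚ, vx x ∉ S →
      TT (syE (cP a) (cQ b)) x = rE a b (vx x) := by
  have h6 : (6 : 𝓞 ℚ) ≠ 0 := by norm_num
  have hfin := (finite_mem (K := ℚ) (mul_ne_zero h6 (disc_ne h)))
  refine ⟨hfin.toFinset, fun x hx => ?_⟩
  rw [Set.Finite.mem_toFinset, Set.mem_ofPred_eq] at hx
  have hx6 : (6 : 𝓞 ℚ) ∉ (vx x).asIdeal := fun h => hx (Ideal.mul_mem_right _ _ h)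
  have hxD : (cP a) ^ 3 - (cQ b) ^ 2 ∉ (vx x).asIdeal := fun h => hx (Ideal.mul_mem_left _ _ h)
  have hx2 : (2 : 𝓞 ℚ) ∉ (vx x).asIdeal := by
    intro h
    apply hx6
    have : (6 : 𝓞 ℚ) = 2 * 3 := by norm_num
    rw [this]
    exact Ideal.mul_mem_right _ _ h
  have hp : Fact (x.1 : ℕ).Prime := ⟨x.1.2⟩
  rw [vx_asIdeal, RingHom.mem_ker] at hx6 hxD
  have h6' : (6 : ZMod (x.1 : ℕ)) ≠ 0 := by
    rw [map_ofNat] at hx6
    exact hx6
  rw [rE_eq hx2]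
  have e1 : TT (syE (cP a) (cQ b)) x = (tEH (cP a) (cQ b) x).re := by
    have : TT (syE (cP a) (cQ b)) x = ∑ _j ∈ ({()} : Finset Unit), (tEH (cP a) (cQ b) x).re := rfl
    rw [this, Finset.sum_singleton]
  have e2 : nm ℚ (vx x) = (x.1 : ℕ) := nm_vx x
  have e3 : trace (vx x) a b = -(csH (cP a) (cQ b) x) := by
    have h1 : trace (vx x) a b = ((x.1 : ℕ) : ℤ) + 1 - points (ZMod (x.1 : ℕ)) a b :=
      trace_kerPrime x.1 x.2 a b
    rw [h1, points_eq (x.1 : ℕ) h6' a b]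
    unfold csH cP cQ
    rw [map_intCast, map_intCast]
    ring
  rw [e1, e2, e3]
  unfold tEH
  rw [if_pos ⟨hx6, hxD⟩]
  have e : -(csH (cP a) (cQ b) x : ℂ) * ((Real.sqrt (x.1 : ℕ) : ℝ) : ℂ)⁻¹ =
      ((-(csH (cP a) (cQ b) x : ℝ) * (Real.sqrt (x.1 : ℕ))⁻¹ : ℝ) : ℂ) := by
    push_cast
    rfl
  rw [e, Complex.ofReal_re]
  push_cast
  rw [div_eq_mul_inv]

end Pool.Agent.E8helper14.RSE
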