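import Pool.Agent.TH322.BC.Defs
import Pool.Agent.Y722.EP.Defs

/-!
# Modular elliptic curves over the rationals over all number fields: definitions

`K` is a number field, in the results `K = ℚ`, and `E` an elliptic curve over `K`.  For a number
field `F ⊇ K` and `D ∈ F^*` let `E_D / F` be the twist of `E` over `F` by the quadratic character of
`F(√D)/F`, and `χ_D` the character of the representation of `Gal(K̄/K)` induced from this quadratic
character.  The `L`-function `LSeries V` of `E_D / F`, given by minimal models `V`, its size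
`log |L(3/2 + iτ + ε)| / log(1/ε)`, its order at `3/2 + iτ` and the character `χ_D` are defined in
`Pool.Agent.TH322.BC.Defs`; modular elliptic curves are defined in `Pool.Agent.Y722.EP.Defs`.
-/

set_option autoImplicit false

namespace Pool.Agent.E8helper14.RSE

open NumberField IsDedekindDomain Filter Topology
open Pool.Agent.W353.EF (perm)
open Pool.Agent.TH322.BC.Edge (MinimalModels HasOrder character twist LimsupLE)
open Pool.Agent.Y722.EP (IsModular NotIsogenous)

/-- The elliptic curve `y² = x³ + a x + b` over `ℚ`. -/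
noncomputable def curve (a b : ℤ) : WeierstrassCurve ℚ where
  a₁ := 0
  a₂ := 0
  a₃ := 0
  a₄ := a
  a₆ := b

/-- A family of modular elliptic curves `E_i : y² = x³ + a_i x + b_i` over `ℚ`, no two of them
isogenous. -/
structure Family (ι : Type) where
  a : ι → ℤ
  b : ι → ℤ
  disc : ∀ i, 4 * a i ^ 3 + 27 * b i ^ 2 ≠ 0
  modular : ∀ i, IsModular (a i) (b i)
  notIsogenous : ∀ i j, i ≠ j → NotIsogenous (a i) (b i) (a j) (b j)

open Classical in
/-- The weight of the height `τ ≥ 0`: the points `3/2 + iτ` and `3/2 - iτ` are counted together. -/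
noncomputable def weight (τ : ℝ) : ℕ := if τ = 0 then 1 else 2

section
variable (K : Type) [Field K] [NumberField K]

/-- The absolute Galois group of `K`. -/
abbrev AbsGal : Type := Gal(AlgebraicClosure K/K)

variable {K} in
/-- The mean value over a finite quotient of the absolute Galois group. -/
noncomputable def mean (U : Subgroup (AbsGal K)) (f : AbsGal K ⧸ U → ℝ) : ℝ :=
  (Nat.card (AbsGal K ⧸ U) : ℝ)⁻¹ * ∑ᶠ q, f q

/-- Finitely many number fields `F_k ⊇ K`, elements `D_k ∈ F_k^*` and integers `c_k`: data for the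
products `∏ L(E_{D_k} / F_k, s)^{c_k}`, where `E` is any elliptic curve over `K`. -/
structure Combination where
  κ : Type
  fintype : Fintype κ
  F : κ → Type
  field : ∀ k, Field (F k)
  numberField : ∀ k, NumberField (F k)
  algebra : ∀ k, Algebra K (F k)
  D : ∀ k, 𝓞 (F k)
  D_ne_zero : ∀ k, D k ≠ 0
  c : κ → ℤ

attribute [instance] Combination.fintype Combination.field Combination.numberField
  Combination.algebra

variable {K}

/-- The virtual character `ψ = ∑ c_k χ_{D_k}` of `Gal(K̄/K)`. -/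
noncomputable def Combination.psi (A : Combination K) (σ : AbsGal K) : ℤ :=
  ∑ k, A.c k * character (K := K) (A.D k : A.F k) σ

/-- `U` is open and acts trivially on the conjugates of the fields `F_k` and of the `√D_k`. -/
def Combination.IsKernel (A : Combination K) (U : Subgroup (AbsGal K)) : Prop :=
  IsOpen (U : Set (AbsGal K)) ∧ ∀ k, ∀ u ∈ U, perm K (A.F k) u = 1 ∧
    ∀ (i : A.F k →ₐ[K] AlgebraicClosure K) (s : AlgebraicClosure K), s ^ 2 = i (A.D k) → u s = s

/-- Minimal models of the twists `E_{D_k} / F_k`. -/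
structure Combination.Models (A : Combination K) (E : WeierstrassCurve K) where
  V : ∀ k, HeightOneSpectrum (𝓞 (A.F k)) → WeierstrassCurve (𝓞 (A.F k))
  minimal : ∀ k, MinimalModels (twist (E.map (algebraMap K (A.F k))) (A.D k : A.F k)) (V k)

/-- The size `∑ c_k log |L(E_{D_k} / F_k, 3/2 + iτ + ε)| / log(1/ε)` of `∏ L(E_{D_k} / F_k, s)^{c_k}`. -/
noncomputable def Combination.Models.size {A : Combination K} {E : WeierstrassCurve K}
    (M : A.Models E) (τ ε : ℝ) : ℝ :=
  ∑ k, A.c k * Pool.Agent.TH322.BC.Edge.size (M.V k) τ ε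

/-- The functions `L(E_{D_k} / F_k, s)` have meromorphic continuations to neighbourhoods of
`3/2 + iτ`, and `∏ L(E_{D_k} / F_k, s)^{c_k}` has the order `m` there. -/
def Combination.Models.Order {A : Combination K} {E : WeierstrassCurve K} (M : A.Models E)
    (τ : ℝ) (m : ℤ) : Prop :=
  ∃ n : A.κ → ℤ, (∀ k, HasOrder (M.V k) τ (n k)) ∧ m = ∑ k, A.c k * n k

variable (K) (F : Type) [Field F] [NumberField F] [Algebra K F]

/-- The pairs `(i, j)` and `(i', j')` of embeddings of `F` are conjugate. -/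
def pairSetoid : Setoid ((F →ₐ[K] AlgebraicClosure K) × (F →ₐ[K] AlgebraicClosure K)) where
  r x y := ∃ σ : AbsGal K, perm K F σ x.1 = y.1 ∧ perm K F σ x.2 = y.2
  iseqv :=
    { refl := fun x => ⟨1, by rw [map_one]; exact ⟨rfl, rfl⟩⟩
      symm := by
        rintro x y ⟨σ, h1, h2⟩
        refine ⟨σ⁻¹, ?_, ?_⟩
        · rw [map_inv, ← h1]
          exact (perm K F σ).symm_apply_apply _
        · rw [map_inv, ← h2]
          exact (perm K F σ).symm_apply_apply _
      trans := by
        rintro x y z ⟨σ, h1, h2⟩ ⟨ρ, h3, h4⟩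
        refine ⟨ρ * σ, ?_, ?_⟩
        · rw [map_mul, Equiv.Perm.mul_apply, h1, h3]
        · rw [map_mul, Equiv.Perm.mul_apply, h2, h4] }

/-- The rank of `F`: the number of the orbits of the Galois group on the pairs of embeddings of `F`
over `K` (the number of the simple factors of `F ⊗_K F`). -/
noncomputable def rank : ℕ := Nat.card (Quotient (pairSetoid K F))

/-- The Galois group acts doubly transitively on the embeddings of `F` over `K`. -/
def DoublyTransitive : Prop :=
  ∀ i j i' j' : F →ₐ[K] AlgebraicClosure K, i ≠ j → i' ≠ j' →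
    ∃ σ : AbsGal K, perm K F σ i = i' ∧ perm K F σ j = j'

variable {K} in
/-- Minimal models of an elliptic curve `E` over `K` and of `E` over `F`. -/
structure BaseChange (E : WeierstrassCurve K) where
  V₀ : HeightOneSpectrum (𝓞 K) → WeierstrassCurve (𝓞 K)
  minimal₀ : MinimalModels E V₀
  V : HeightOneSpectrum (𝓞 F) → WeierstrassCurve (𝓞 F)
  minimal : MinimalModels (E.map (algebraMap K F)) V

variable {K F} {E : WeierstrassCurve K}

/-- The size `log |L(E/F, s) / L(E/K, s)| / log(1/ε)` at `s = 3/2 + iτ + ε`. -/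
noncomputable def BaseChange.size (P : BaseChange F E) (τ ε : ℝ) : ℝ :=
  Pool.Agent.TH322.BC.Edge.size P.V τ ε - Pool.Agent.TH322.BC.Edge.size P.V₀ τ ε

/-- `L(E/F, s)` and `L(E/K, s)` have meromorphic continuations to neighbourhoods of `3/2 + iτ`, and
`m` is the order of `L(E/F, s)` minus the order of `L(E/K, s)` at this point. -/
def BaseChange.Order (P : BaseChange F E) (τ : ℝ) (m : ℤ) : Prop :=
  ∃ m₀ m₁ : ℤ, HasOrder P.V₀ τ m₀ ∧ HasOrder P.V τ m₁ ∧ m = m₁ - m₀

end

/-- No two of the points `(i, τ)` are equal up to the sign of `τ`. -/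
def Separated {ι : Type} (S : Finset (ι × ℝ)) : Prop :=
  ∀ x ∈ S, ∀ y ∈ S, x.1 = y.1 → |x.2| = |y.2| → x = y

/-- **The inequality for the sizes.**  Let `E_i` be modular elliptic curves over `ℚ`, no two of them
isogenous, `ψ = ∑ c_k χ_{D_k}` and `x_{i,τ}(ε)` the size of `∏ L(E_{i,D_k} / F_k, s)^{c_k}` at
`3/2 + iτ + ε`.  Let `x⁺ = max(x, 0)` or `x⁺ = max(-x, 0)`, and `w_τ = 1` if `τ = 0` and `w_τ = 2` if
`τ ≠ 0`.  For every finite set of points `(i, τ)`, every `η > 0` and all small `ε > 0`,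
`∑ w_τ (x⁺_{i,τ})² + mean (|ψ| - 2 ∑ w_τ x⁺_{i,τ})⁺² ≤ mean ψ² + η`.
No continuation is assumed. -/
def SizeInequality : Prop :=
  ∀ (ι : Type) (𝓔 : Family ι) (A : Combination ℚ) (M : ∀ i, A.Models (curve (𝓔.a i) (𝓔.b i)))
    (U : Subgroup (AbsGal ℚ)) [U.Normal], A.IsKernel U → ∀ (s : ℤˣ) (S : Finset (ι × ℝ)),
    Separated S → ∀ η : ℝ, 0 < η → ∀ᶠ ε : ℝ in 𝓝[>] 0,
      ∑ y ∈ S, weight y.2 * (max ((s : ℤ) * (M y.1).size y.2 ε) 0) ^ 2 +
        mean U (fun q => (max (|(A.psi q.out : ℝ)| -
          2 * ∑ y ∈ S, weight y.2 * max ((s : ℤ) * (M y.1).size y.2 ε) 0) 0) ^ 2) ≤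
      mean U (fun q => (A.psi q.out : ℝ) ^ 2) + η

/-- **The inequality for the orders.**  If `∏ L(E_{i,D_k} / F_k, s)^{c_k}` has the order `m_{i,τ}` at
`3/2 + iτ` for the points `(i, τ)` of a finite set, and `m⁺ = max(m, 0)` or `m⁺ = max(-m, 0)`, then
`∑ w_τ (m⁺_{i,τ})² + mean (|ψ| - 2 ∑ w_τ m⁺_{i,τ})⁺² ≤ mean ψ²`.  If `mean ψ² ≤ N` and `|ψ|` has a value
larger than `2N`, then `∑ w_τ (m⁺_{i,τ})² < N`. -/
def OrderInequality : Prop :=
  ∀ (ι : Type) (𝓔 : Family ι) (A : Combination ℚ) (M : ∀ i, A.Models (curve (𝓔.a i) (𝓔.b i)))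
    (U : Subgroup (AbsGal ℚ)) [U.Normal], A.IsKernel U → ∀ (s : ℤˣ) (S : Finset (ι × ℝ)),
    Separated S → ∀ m : ι × ℝ → ℤ, (∀ y ∈ S, (M y.1).Order y.2 (m y)) →
      ∑ y ∈ S, weight y.2 * (max (((s : ℤ) * m y : ℤ) : ℝ) 0) ^ 2 +
        mean U (fun q => (max (|(A.psi q.out : ℝ)| -
          2 * ∑ y ∈ S, weight y.2 * max (((s : ℤ) * m y : ℤ) : ℝ) 0) 0) ^ 2) ≤
      mean U (fun q => (A.psi q.out : ℝ) ^ 2) ∧
      ∀ N : ℕ, mean U (fun q => (A.psi q.out : ℝ) ^ 2) ≤ N → (∃ σ, 2 * (N : ℤ) < |A.psi σ|) →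
        ∑ y ∈ S, (weight y.2 : ℤ) * (max ((s : ℤ) * m y) 0) ^ 2 < N

/-- **Irreducible characters with a value of absolute value at least `3`.**  Let `ψ = ∑ c_k χ_{D_k}` be
an irreducible character, up to the sign (`mean ψ² ≤ 1`), with a value of absolute value at least `3`
(for instance, of degree at least `3`), and `E` a modular elliptic curve over `ℚ`.  Then for all real `τ`,
`τ = 0` included, `∏ L(E_{D_k} / F_k, s)^{c_k}` has neither a zero nor a pole at `3/2 + iτ`, if the factors
have continuations; and without a continuation the size is asymptotically at most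
`√(1 - 1/g) < 1` in absolute value, where `g` is the order of the Galois group. -/
def IrreducibleCombinations : Prop :=
  ∀ (a b : ℤ), 4 * a ^ 3 + 27 * b ^ 2 ≠ 0 → IsModular a b → ∀ (A : Combination ℚ)
    (M : A.Models (curve a b)) (U : Subgroup (AbsGal ℚ)) [U.Normal], A.IsKernel U →
    mean U (fun q => (A.psi q.out : ℝ) ^ 2) ≤ 1 → (∃ σ, 3 ≤ |A.psi σ|) → ∀ τ : ℝ,
      LimsupLE (M.size τ) (Real.sqrt (1 - 1 / Nat.card (AbsGal ℚ ⧸ U))) ∧
      ∀ m : ℤ, M.Order τ m → m = 0

/-- **Base change to a number field.**  Let `F` be a number field of degree `n` and rank `r`, and `E_i`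
modular elliptic curves over `ℚ`, no two of them isogenous.  Let `m_{i,τ}` be the difference of the orders
of `L(E_i / F, s)` and of `L(E_i / ℚ, s)` at `3/2 + iτ`.  Then the sum of the `w_τ m_{i,τ}²` over all the
points `(i, τ)` with `m_{i,τ} > 0` is at most `r - 1`, and the same holds for the points with
`m_{i,τ} < 0`; if `n + 1 > 2r`, then these sums are smaller than `r - 1`.  The difference is positive at
some point for at most `r - 1` of the curves, and negative at some point for at most `r - 1` of them. -/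
def BaseChangeInequality : Prop :=
  ∀ (ι : Type) (𝓔 : Family ι) (F : Type) [Field F] [NumberField F]
    (P : ∀ i, BaseChange F (curve (𝓔.a i) (𝓔.b i))) (s : ℤˣ),
    (∀ S : Finset (ι × ℝ), Separated S → ∀ m : ι × ℝ → ℤ, (∀ y ∈ S, (P y.1).Order y.2 (m y)) →
      ∑ y ∈ S, (weight y.2 : ℤ) * (max ((s : ℤ) * m y) 0) ^ 2 ≤ rank ℚ F - 1 ∧
      (2 * rank ℚ F < Module.finrank ℚ F + 1 →
        ∑ y ∈ S, (weight y.2 : ℤ) * (max ((s : ℤ) * m y) 0) ^ 2 < rank ℚ F - 1)) ∧
    {i | ∃ (τ : ℝ) (m : ℤ), (P i).Order τ m ∧ 0 < (s : ℤ) * m}.Finite ∧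
    {i | ∃ (τ : ℝ) (m : ℤ), (P i).Order τ m ∧ 0 < (s : ℤ) * m}.ncard ≤ rank ℚ F - 1

/-- **Base change to a number field with doubly transitive Galois group.**  Let `F` be a number field of
degree `n ≥ 4` such that the Galois group acts doubly transitively on the embeddings of `F`, and `E` a
modular elliptic curve over `ℚ`.  Then `L(E/F, s)` and `L(E/ℚ, s)` have the same order at every point
`3/2 + iτ`, `τ = 0` included, if there are continuations; and without a continuation the size of the
quotient is asymptotically at most `√(1 - 1/n!) < 1` in absolute value. -/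
def DoublyTransitiveBaseChange : Prop :=
  ∀ (a b : ℤ), 4 * a ^ 3 + 27 * b ^ 2 ≠ 0 → IsModular a b → ∀ (F : Type) [Field F] [NumberField F],
    DoublyTransitive ℚ F → 4 ≤ Module.finrank ℚ F → ∀ (P : BaseChange F (curve a b)) (τ : ℝ),
      LimsupLE (P.size τ) (Real.sqrt (1 - 1 / (Module.finrank ℚ F).factorial)) ∧
      ∀ m : ℤ, P.Order τ m → m = 0

end Pool.Agent.E8helper14.RSE
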