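import Pool.Agent.E8helper14.RSE.Main

/-! Number fields: the mean value of the square, and the sizes of a base change. -/

set_option autoImplicit false
set_option linter.unusedSectionVars false

namespace Pool.Agent.E8helper14.RSE

open Complex Filter Topology ComplexConjugate NumberField IsDedekindDomain Asymptotics
  Pool.Agent.W401.Cheb Pool.Agent.W540.BE Pool.Agent.W353.L1 Pool.Agent.W353.NF
  Pool.Agent.TH322.BC
open Pool.Agent.W353.EF (perm)
open Pool.Agent.W353.TP (HX sysH LL)
open Pool.Agent.W353.AB (Sy syE)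
open Pool.Agent.TH322.BC.Edge (MinimalModels LSeries HasOrder character LimsupLE twist TwistOver
  size_twist size_base character_eq syE_D coe_ne orders)

/-- Burnside's lemma for pairs -/
theorem burnside2 {H Y : Type*} [Group H] [Finite H] [Finite Y] (a : H →* Equiv.Perm Y)
    (s : Setoid (Y × Y)) (hs : ∀ x y, s.r x y ↔ ∃ g, a g x.1 = y.1 ∧ a g x.2 = y.2) :
    ∑ᶠ g : H, (((Nat.card {y // a g y = y} : ℕ) : ℝ)) ^ 2 =
      Nat.card (Quotient s) * Nat.card H := by
  classical
  let _ : Fintype H := Fintype.ofFinite H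
  let _ : Fintype Y := Fintype.ofFinite Y
  let _ : MulAction H Y := MulAction.compHom Y a
  have hsm : ∀ (g : H) (y : Y), g • y = a g y := fun g y => rfl
  let _ : Fintype (Quotient (MulAction.orbitRel H (Y × Y))) := Fintype.ofFinite _
  have h1 := MulAction.sum_card_fixedBy_eq_card_orbits_mul_card_group H (Y × Y)
  have h2 : ∀ g : H, Fintype.card (MulAction.fixedBy (Y × Y) g) =
      (Nat.card {y // a g y = y}) ^ 2 := by
    intro g
    rw [← Nat.card_eq_fintype_card, sq, ← Nat.card_prod]
    refine Nat.card_congr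
      { toFun := fun y => (⟨y.1.1, congrArg Prod.fst (MulAction.mem_fixedBy.1 y.2)⟩,
          ⟨y.1.2, congrArg Prod.snd (MulAction.mem_fixedBy.1 y.2)⟩)
        invFun := fun y => ⟨(y.1.1, y.2.1), by
          rw [MulAction.mem_fixedBy]
          exact Prod.ext y.1.2 y.2.2⟩
        left_inv := fun y => rfl
        right_inv := fun y => rfl }
  have h3 : MulAction.orbitRel H (Y × Y) = s := by
    refine Setoid.ext fun x y => ?_
    rw [MulAction.orbitRel_apply, MulAction.mem_orbit_iff]
    have h4 : s x y ↔ s.r y x := ⟨fun h => s.symm h, fun h => s.symm h⟩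
    rw [h4, hs]
    constructor
    · rintro ⟨g, hg⟩
      exact ⟨g, congrArg Prod.fst hg, congrArg Prod.snd hg⟩
    · rintro ⟨g, hg1, hg2⟩
      exact ⟨g, Prod.ext hg1 hg2⟩
  rw [finsum_eq_sum_of_fintype]
  have h5 : ∑ g : H, (((Nat.card {y // a g y = y} : ℕ) : ℝ)) ^ 2 =
      ((∑ g : H, Fintype.card (MulAction.fixedBy (Y × Y) g) : ℕ) : ℝ) := by
    rw [Nat.cast_sum]
    refine Finset.sum_congr rfl fun g _ => ?_
    rw [h2]
    push_cast
    rfl
  rw [h5, h1, Nat.cast_mul, ← Nat.card_eq_fintype_card, ← Nat.card_eq_fintype_card, h3]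

section
variable (K : Type) [Field K] [NumberField K] (F : Type) [Field F] [NumberField F] [Algebra K F]

/-- **The mean value of the square.** -/
theorem mean_sq : avR (act K F).ker (fun q => ((fixn K F q.out : ℝ) - 1) ^ 2) =
    rank K F - 1 := by
  classical
  have hfin : Finite (act K F).range := inferInstance
  let _ : Fintype (act K F).range := Fintype.ofFinite _
  have h1 := avR_ker (act K F) fun π => (((Nat.card {y // π y = y} : ℕ) : ℝ) - 1) ^ 2
  have h2 : (fun q : GK K ⧸ (act K F).ker => ((fixn K F q.out : ℝ) - 1) ^ 2) = fun q =>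
      (((Nat.card {y // act K F q.out y = y} : ℕ) : ℝ) - 1) ^ 2 := rfl
  rw [h2, h1]
  have g3 := burnside (G := (act K F).range) (Y := F →ₐ[K] AlgebraicClosure K)
    (act K F).range.subtype (fun i j => by
      obtain ⟨σ, hσ⟩ := act_trans K F i j
      exact ⟨⟨act K F σ, ⟨σ, rfl⟩⟩, hσ⟩)
  have g4 := burnside2 (H := (act K F).range) (Y := F →ₐ[K] AlgebraicClosure K)
    (act K F).range.subtype (pairSetoid K F) (fun x y => by
      constructor
      · rintro ⟨σ, h3, h4⟩
        exact ⟨⟨act K F σ, ⟨σ, rfl⟩⟩, h3, h4⟩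
      · rintro ⟨⟨π, ⟨σ, rfl⟩⟩, h3, h4⟩
        exact ⟨σ, h3, h4⟩)
  rw [finsum_eq_sum_of_fintype] at g3 g4 ⊢
  have hc : (Nat.card (act K F).range : ℝ) ≠ 0 := by exact_mod_cast Nat.card_pos.ne'
  have h3 : ∀ h : (act K F).range, (((Nat.card {y : F →ₐ[K] AlgebraicClosure K // h.1 y = y} : ℕ) :
      ℝ) - 1) ^ 2 = (((Nat.card {y // (act K F).range.subtype h y = y} : ℕ) : ℝ)) ^ 2 -
        2 * ((Nat.card {y // (act K F).range.subtype h y = y} : ℕ) : ℝ) + 1 := by
    intro h
    have : (act K F).range.subtype h = h.1 := rfl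
    rw [this]
    ring
  rw [Finset.sum_congr rfl fun h _ => h3 h, Finset.sum_add_distrib, Finset.sum_sub_distrib,
    ← Finset.mul_sum, g3, g4]
  simp only [Finset.sum_const, Finset.card_univ, nsmul_eq_mul, mul_one,
    ← Nat.card_eq_fintype_card]
  unfold rank
  field_simp
  ring

theorem fixn_at_one : fixn K F 1 = Module.finrank K F := by
  have h1 : Nat.card (F →ₐ[K] AlgebraicClosure K) = Module.finrank K F := by
    rw [Nat.card_eq_fintype_card]
    exact AlgHom.card K F (AlgebraicClosure K)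
  rw [← h1]
  unfold fixn
  refine Nat.card_congr (Equiv.subtypeUnivEquiv fun i => ?_)
  rw [map_one]
  rfl

theorem rank_le_two (h : DoublyTransitive K F) : rank K F ≤ 2 := by
  classical
  unfold rank
  let f : Quotient (pairSetoid K F) → Bool := Quotient.lift (fun x => decide (x.1 = x.2)) (by
    rintro x y ⟨σ, h1, h2⟩
    refine decide_eq_decide.2 ?_
    rw [← h1, ← h2]
    exact ((perm K F σ).injective.eq_iff).symm)
  have hf : Function.Injective f := by
    intro q q' hqq
    induction q using Quotient.inductionOn with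
    | _ x =>
      induction q' using Quotient.inductionOn with
      | _ y =>
        have h1 : decide (x.1 = x.2) = decide (y.1 = y.2) := hqq
        have h2 : (x.1 = x.2) ↔ (y.1 = y.2) := decide_eq_decide.1 h1
        refine Quotient.sound ?_
        by_cases h3 : x.1 = x.2
        · have h4 := h2.1 h3
          obtain ⟨σ, hσ⟩ := act_trans K F x.1 y.1
          exact ⟨σ, hσ, by rw [← h3, ← h4]; exact hσ⟩
        · exact h x.1 x.2 y.1 y.2 h3 fun h4 => h3 (h2.2 h4)
  have := Nat.card_le_card_of_injective f hf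
  simpa using this

theorem card_ker : Nat.card (GK K ⧸ (act K F).ker) ≤ (Module.finrank K F).factorial := by
  classical
  have h1 : Nat.card (F →ₐ[K] AlgebraicClosure K) = Module.finrank K F := by
    rw [Nat.card_eq_fintype_card]
    exact AlgHom.card K F (AlgebraicClosure K)
  rw [Nat.card_congr (QuotientGroup.quotientKerEquivRange (act K F)).toEquiv]
  have h2 : Nat.card (act K F).range ≤ Nat.card (Equiv.Perm (F →ₐ[K] AlgebraicClosure K)) :=
    Nat.card_le_card_of_injective _ Subtype.val_injective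
  refine h2.trans (le_of_eq ?_)
  rw [Nat.card_perm, h1]

variable {K F} {E : WeierstrassCurve K} {l P Q : 𝓞 K} (hl : l ≠ 0)
    (hP : (P : K) = (l : K) ^ 4 * E.c₄) (hQ : (Q : K) = (l : K) ^ 6 * E.c₆)
    (hD : P ^ 3 - Q ^ 2 ≠ 0)

include hl hP hQ hD in
theorem base_size' (B : BaseChange F E) (σ : HeightOneSpectrum (𝓞 K) → GK K)
    (hσ : ∀ v, IsFrob v (σ v)) (τ : ℝ) :
    SzH (TT (syE P Q)) (fun v => ((fixn K F (σ v) : ℝ) - 1) * cz τ v) (B.size τ) := by
  have hVK : MinimalModels (E.map (algebraMap K K)) B.V₀ := by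
    have : E.map (algebraMap K K) = E := E.map_id
    rw [this]
    exact B.minimal₀
  have s0 := size_base (F := K) hl hP hQ hD hVK τ
  have s1 := size_base (F := F) hl hP hQ hD B.minimal τ
  have h1 := size_fix (syE P Q) (syE_real P Q) σ hσ s1.2
  have h2 := size_fix (syE P Q) (syE_real P Q) σ hσ s0.2
  have hb1 : ∀ v, |(fixn K F (σ v) : ℝ) * cz τ v| ≤ Module.finrank ℚ F := by
    intro v
    rw [abs_mul, abs_of_nonneg (Nat.cast_nonneg _)]
    calc (fixn K F (σ v) : ℝ) * |cz τ v| ≤ Module.finrank ℚ F * 1 :=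
          mul_le_mul (fixn_le _) (abs_cz _ _) (abs_nonneg _) (by positivity)
      _ = _ := mul_one _
  have hb2 : ∀ v, |(-1 : ℝ) * ((fixn K K (σ v) : ℝ) * cz τ v)| ≤ 1 := by
    intro v
    rw [fixn_self, abs_mul, abs_neg, abs_one, one_mul, Nat.cast_one, one_mul]
    exact abs_cz _ _
  exact (h1.add (h2.const_mul (-1)) (abs_TT (syE P Q)) hb1 hb2).congr
    (fun v => by rw [fixn_self]; push_cast; ring) (fun ε => by
      unfold BaseChange.size
      ring)

include hl hP hQ hD in
theorem base_lim' (B : BaseChange F E) {τ : ℝ} {m : ℤ} (hm : B.Order τ m) :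
    Tendsto (B.size τ) (𝓝[>] 0) (𝓝 (-(m : ℝ))) := by
  obtain ⟨m₀, m₁, h0, h1, e⟩ := hm
  have hVK : MinimalModels (E.map (algebraMap K K)) B.V₀ := by
    have : E.map (algebraMap K K) = E := E.map_id
    rw [this]
    exact B.minimal₀
  have s0 := size_base (F := K) hl hP hQ hD hVK τ
  have s1 := size_base (F := F) hl hP hQ hD B.minimal τ
  have h2 := (orders s1.1 h1).sub (orders s0.1 h0)
  have e2 : -(m₁ : ℝ) - -(m₀ : ℝ) = -(m : ℝ) := by
    rw [e]
    push_cast
    ring
  rw [e2] at h2
  exact h2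

end

end Pool.Agent.E8helper14.RSE
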