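import Pool.Agent.E8helper14.RSE.Fields

/-! The final theorems. -/

set_option autoImplicit false
set_option linter.unusedSectionVars false

namespace Pool.Agent.E8helper14.RSE

open Complex Filter Topology ComplexConjugate NumberField IsDedekindDomain Asymptotics
  Pool.Agent.W401.Cheb Pool.Agent.W540.BE Pool.Agent.W353.L1 Pool.Agent.W353.NF
  Pool.Agent.TH322.BC
open Pool.Agent.W353.EF (perm)
open Pool.Agent.W353.TP (HX sysH LL)
open Pool.Agent.W353.AB (Sy syE)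
open Pool.Agent.H341R2 (lam lam_tendsto)
open Pool.Agent.Y722.EP (IsModular NotIsogenous rE abs_rE)
open Pool.Agent.TH322.BC.Edge (MinimalModels LSeries HasOrder character LimsupLE twist TwistOver
  size_twist size_base character_eq syE_D coe_ne orders)

theorem wt_abs (τ : ℝ) : wt |τ| = wt τ := by
  classical
  unfold wt
  simp only [abs_eq_zero]

theorem cz_abs {K : Type} [Field K] [NumberField K] (τ : ℝ) (v : HeightOneSpectrum (𝓞 K)) :
    cz |τ| v = cz τ v := by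
  rcases abs_choice τ with h | h
  · rw [h]
  · rw [h, cz_neg]

/-- The hypotheses on the character. -/
structure Char (U : Subgroup (GK ℚ)) (ψ : GK ℚ → ℝ) : Prop where
  mul : ∀ σ, ∀ u ∈ U, ψ (σ * u) = ψ σ
  cnj : ∀ σ ρ, ψ (ρ * σ * ρ⁻¹) = ψ σ
  inv : ∀ σ, ψ σ⁻¹ = ψ σ
  le : ∃ B : ℝ, ∀ σ, |ψ σ| ≤ B

theorem Char.neg {U : Subgroup (GK ℚ)} {ψ : GK ℚ → ℝ} (h : Char U ψ) :
    Char U (fun g => -ψ g) where
  mul σ u hu := by rw [h.mul σ u hu]
  cnj σ ρ := by rw [h.cnj σ ρ]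
  inv σ := by rw [h.inv σ]
  le := by
    obtain ⟨B, hB⟩ := h.le
    exact ⟨B, fun σ => by rw [abs_neg]; exact hB σ⟩

section
variable (U : Subgroup (GK ℚ)) [U.Normal] (hU : IsOpen (U : Set (GK ℚ)))
    [Finite (GK ℚ ⧸ U)] {ψ : GK ℚ → ℝ} (hψ : Char U ψ) {ι : Type} (𝓔 : Family ι)
    (S : Finset (ι × ℝ)) (hS : Separated S) (X : ι × ℝ → ℝ → ℝ)

include hU hψ hS in
/-- the inequality for separated sets, and the positive parts -/
theorem sep_pos
    (hX : ∀ σ : HeightOneSpectrum (𝓞 ℚ) → GK ℚ, (∀ v, IsFrob v (σ v)) → ∀ x ∈ S,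
      SzH (TT (syE (cP (𝓔.a x.1)) (cQ (𝓔.b x.1)))) (fun v => ψ (σ v) * cz x.2 v) (X x))
    {η : ℝ} (hη : 0 < η) :
    ∀ᶠ ε : ℝ in 𝓝[>] 0, ∑ x ∈ S, wt x.2 * (max (X x ε) 0) ^ 2 +
      avR U (fun q => (max (|ψ q.out| - 2 * ∑ x ∈ S, wt x.2 * max (X x ε) 0) 0) ^ 2) ≤
      avR U (fun q => (ψ q.out) ^ 2) + η := by
  classical
  choose σ hσ using exists_isFrob (F := ℚ)
  obtain ⟨B, hB⟩ := hψ.le
  rcases isEmpty_or_nonempty ι with hι | hι
  · have hS0 : S = ∅ := Finset.eq_empty_of_isEmpty S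
    subst hS0
    refine Eventually.of_forall fun ε => ?_
    have e1 : avR U (fun q => (max (|ψ q.out| - 2 * ∑ x ∈ (∅ : Finset (ι × ℝ)),
        wt x.2 * max (X x ε) 0) 0) ^ 2) = avR U (fun q => (ψ q.out) ^ 2) := by
      congr 1
      funext q
      rw [Finset.sum_empty, mul_zero, sub_zero, max_eq_left (abs_nonneg _), sq_abs]
    rw [e1, Finset.sum_empty]
    linarith
  have : Nonempty (ι × ℝ) := ⟨(Classical.arbitrary ι, 0)⟩
  set p : ι × ℝ → ι × ℝ := fun x => (x.1, |x.2|) with hp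
  have hinj : Set.InjOn p S := by
    intro x hx y hy hxy
    rw [hp] at hxy
    simp only [Prod.mk.injEq] at hxy
    exact hS x hx y hy hxy.1 hxy.2
  set g : ι × ℝ → ι × ℝ := Function.invFunOn p S with hg
  have hgp : ∀ x ∈ S, g (p x) = x := fun x hx => hinj.leftInvOn_invFunOn hx
  have key := core U hU ψ hψ.mul hψ.cnj hψ.inv hB σ hσ (a := 𝓔.a) (b := 𝓔.b) (S.image p)
    (fun x hx => by
      obtain ⟨y, hy, rfl⟩ := Finset.mem_image.1 hx
      exact abs_nonneg _)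
    (fun x _ => 𝓔.disc x.1) (fun x _ => 𝓔.modular x.1)
    (fun x _ y _ hxy => 𝓔.notIsogenous x.1 y.1 hxy) (fun x => X (g x)) (fun x hx => by
      obtain ⟨y, hy, rfl⟩ := Finset.mem_image.1 hx
      rw [hgp y hy]
      have h1 := hX σ hσ y hy
      have h2 : (fun v => ψ (σ v) * cz (p y).2 v) = fun v => ψ (σ v) * cz y.2 v := by
        funext v
        rw [hp]
        simp only [cz_abs]
      rw [h2]
      exact h1) hη
  refine key.mono fun ε h => ?_
  rw [Finset.sum_image hinj, Finset.sum_image hinj] at h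
  have e1 : ∀ x ∈ S, wt (p x).2 * (max (X (g (p x)) ε) 0) ^ 2 = wt x.2 * (max (X x ε) 0) ^ 2 := by
    intro x hx
    rw [hgp x hx]
    have : (p x).2 = |x.2| := rfl
    rw [this, wt_abs]
  have e2 : ∀ x ∈ S, wt (p x).2 * max (X (g (p x)) ε) 0 = wt x.2 * max (X x ε) 0 := by
    intro x hx
    rw [hgp x hx]
    have : (p x).2 = |x.2| := rfl
    rw [this, wt_abs]
  rw [Finset.sum_congr rfl e1, Finset.sum_congr rfl e2] at h
  exact h

include hU hψ hS in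
/-- the inequality for separated sets -/
theorem sep (s : ℤˣ)
    (hX : ∀ σ : HeightOneSpectrum (𝓞 ℚ) → GK ℚ, (∀ v, IsFrob v (σ v)) → ∀ x ∈ S,
      SzH (TT (syE (cP (𝓔.a x.1)) (cQ (𝓔.b x.1)))) (fun v => ψ (σ v) * cz x.2 v) (X x))
    {η : ℝ} (hη : 0 < η) :
    ∀ᶠ ε : ℝ in 𝓝[>] 0, ∑ x ∈ S, wt x.2 * (max (((s : ℤ) : ℝ) * X x ε) 0) ^ 2 +
      avR U (fun q => (max (|ψ q.out| - 2 * ∑ x ∈ S, wt x.2 * max (((s : ℤ) : ℝ) * X x ε) 0) 0) ^ 2) ≤
      avR U (fun q => (ψ q.out) ^ 2) + η := by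
  rcases Int.units_eq_one_or s with rfl | rfl
  · have h := sep_pos U hU hψ 𝓔 S hS X hX hη
    refine h.mono fun ε h => ?_
    simpa only [Units.val_one, Int.cast_one, one_mul] using h
  · have h := sep_pos U hU hψ.neg 𝓔 S hS (fun x ε => -X x ε)
      (fun σ hσ x hx => SzH_neg (hX σ hσ x hx)) hη
    refine h.mono fun ε h => ?_
    simpa only [Units.val_neg, Units.val_one, Int.cast_neg, Int.cast_one, neg_mul, one_mul,
      abs_neg, neg_sq] using h

include hU hψ hS in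
/-- the inequality for the limits -/
theorem sep_lim (s : ℤˣ)
    (hX : ∀ σ : HeightOneSpectrum (𝓞 ℚ) → GK ℚ, (∀ v, IsFrob v (σ v)) → ∀ x ∈ S,
      SzH (TT (syE (cP (𝓔.a x.1)) (cQ (𝓔.b x.1)))) (fun v => ψ (σ v) * cz x.2 v) (X x))
    (m : ι × ℝ → ℤ) (hm : ∀ x ∈ S, Tendsto (X x) (𝓝[>] 0) (𝓝 (-(m x : ℝ)))) :
    ∑ x ∈ S, wt x.2 * (max (((s : ℤ) * m x : ℤ) : ℝ) 0) ^ 2 +
      avR U (fun q => (max (|ψ q.out| -
        2 * ∑ x ∈ S, wt x.2 * max (((s : ℤ) * m x : ℤ) : ℝ) 0) 0) ^ 2) ≤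
      avR U (fun q => (ψ q.out) ^ 2) := by
  refine le_of_forall_pos_le_add fun η hη => ?_
  have h := sep U hU hψ 𝓔 S hS X (-s) hX hη
  have c1 : ∀ x ∈ S, Tendsto (fun ε => max ((((-s : ℤˣ) : ℤ) : ℝ) * X x ε) 0) (𝓝[>] 0)
      (𝓝 (max (((s : ℤ) * m x : ℤ) : ℝ) 0)) := by
    intro x hx
    have h1 := (hm x hx).const_mul (((-s : ℤˣ) : ℤ) : ℝ)
    have e : (((-s : ℤˣ) : ℤ) : ℝ) * -(m x : ℝ) = (((s : ℤ) * m x : ℤ) : ℝ) := by
      rw [Units.val_neg]
      push_cast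
      ring
    rw [e] at h1
    exact h1.max tendsto_const_nhds
  have h1 : Tendsto (fun ε => ∑ x ∈ S, wt x.2 * (max ((((-s : ℤˣ) : ℤ) : ℝ) * X x ε) 0) ^ 2)
      (𝓝[>] 0) (𝓝 (∑ x ∈ S, wt x.2 * (max (((s : ℤ) * m x : ℤ) : ℝ) 0) ^ 2)) :=
    tendsto_finsetSum _ fun x hx => ((c1 x hx).pow 2).const_mul _
  have h2 : Tendsto (fun ε => ∑ x ∈ S, wt x.2 * max ((((-s : ℤˣ) : ℤ) : ℝ) * X x ε) 0)
      (𝓝[>] 0) (𝓝 (∑ x ∈ S, wt x.2 * max (((s : ℤ) * m x : ℤ) : ℝ) 0)) :=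
    tendsto_finsetSum _ fun x hx => (c1 x hx).const_mul _
  have h3 : Tendsto (fun ε => avR U (fun q =>
      (max (|ψ q.out| - 2 * ∑ x ∈ S, wt x.2 * max ((((-s : ℤˣ) : ℤ) : ℝ) * X x ε) 0) 0) ^ 2))
      (𝓝[>] 0) (𝓝 (avR U (fun q => (max (|ψ q.out| -
        2 * ∑ x ∈ S, wt x.2 * max (((s : ℤ) * m x : ℤ) : ℝ) 0) 0) ^ 2))) :=
    avR_tendsto U fun q => ((tendsto_const_nhds.sub (h2.const_mul 2)).max tendsto_const_nhds).pow 2
  exact le_of_tendsto (h1.add h3) h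

end

/-- the bound for one size, with a weight -/
theorem one_bound' (U : Subgroup (GK ℚ)) [Finite (GK ℚ ⧸ U)] (ψ : GK ℚ → ℝ)
    (hψU : ∀ σ, ∀ u ∈ U, ψ (σ * u) = ψ σ) (hN : avR U (fun q => (ψ q.out) ^ 2) ≤ 1)
    {g : GK ℚ} (hg : 3 ≤ |ψ g|) {x η τ : ℝ} (hη : 0 < η) (hx : 0 ≤ x)
    (h : wt τ * x ^ 2 + avR U (fun q => (max (|ψ q.out| - 2 * (wt τ * x)) 0) ^ 2) ≤
      avR U (fun q => (ψ q.out) ^ 2) + η) :
    x ≤ Real.sqrt (1 - 1 / Nat.card (GK ℚ ⧸ U)) + Real.sqrt (5 * η) := by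
  classical
  by_cases hτ : τ = 0
  · have hw : wt τ = 1 := by
      unfold wt
      rw [if_pos hτ]
    rw [hw] at h
    simp only [one_mul] at h
    exact one_bound U ψ hψU hN hg hη hx h
  · have hw : wt τ = 2 := by
      unfold wt
      rw [if_neg hτ]
    rw [hw] at h
    have hcard : (1 : ℝ) ≤ Nat.card (GK ℚ ⧸ U) := by exact_mod_cast Nat.card_pos
    have h5 := avR_single U (f := fun q => (ψ q.out) ^ 2) (fun q => sq_nonneg _)
      (QuotientGroup.mk g)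
    have h6 : ψ (QuotientGroup.mk g : GK ℚ ⧸ U).out = ψ g := out_eq hψU rfl
    beta_reduce at h5
    rw [h6] at h5
    have h7 : (9 : ℝ) ≤ (ψ g) ^ 2 := by
      rw [← sq_abs]
      nlinarith
    have h8 : (ψ g) ^ 2 ≤ Nat.card (GK ℚ ⧸ U) := by
      have := h5.trans hN
      rwa [div_le_one (by linarith)] at this
    have h9 : 1 / (Nat.card (GK ℚ ⧸ U) : ℝ) ≤ 1 / 2 :=
      one_div_le_one_div_of_le (by norm_num) (by linarith)
    have hn : 0 ≤ avR U (fun q => (max (|ψ q.out| - 2 * (2 * x)) 0) ^ 2) :=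
      avR_nonneg U fun q => sq_nonneg _
    have h10 : x ^ 2 ≤ 1 / 2 + η := by linarith
    set c : ℝ := 1 / Nat.card (GK ℚ ⧸ U) with hc
    have h12 : x ≤ Real.sqrt (1 - c + 5 * η) := Real.le_sqrt_of_sq_le (by linarith)
    refine h12.trans ?_
    have hs := Real.sqrt_nonneg (1 - c)
    have hs' := Real.sqrt_nonneg (5 * η)
    refine Real.sqrt_le_iff.2 ⟨by positivity, ?_⟩
    have e1 := Real.sq_sqrt (show 0 ≤ 1 - c by linarith)
    have e2 := Real.sq_sqrt (show 0 ≤ 5 * η by positivity)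
    nlinarith [mul_nonneg hs hs']

/-- one curve -/
theorem single (U : Subgroup (GK ℚ)) [U.Normal] (hU : IsOpen (U : Set (GK ℚ)))
    [Finite (GK ℚ ⧸ U)] {ψ : GK ℚ → ℝ} (hψ : Char U ψ)
    (hN : avR U (fun q => (ψ q.out) ^ 2) ≤ 1) {g : GK ℚ} (hg : 3 ≤ |ψ g|) {a b : ℤ}
    (h0 : 4 * a ^ 3 + 27 * b ^ 2 ≠ 0) (hmod : IsModular a b) (τ : ℝ) (X : ℝ → ℝ)
    (hX : ∀ σ : HeightOneSpectrum (𝓞 ℚ) → GK ℚ, (∀ v, IsFrob v (σ v)) →
      SzH (TT (syE (cP a) (cQ b))) (fun v => ψ (σ v) * cz τ v) X) :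
    LimsupLE X (Real.sqrt (1 - 1 / Nat.card (GK ℚ ⧸ U))) ∧
      ∀ m : ℤ, Tendsto X (𝓝[>] 0) (𝓝 (-(m : ℝ))) → m = 0 := by
  classical
  set 𝓔 : Family Unit := ⟨fun _ => a, fun _ => b, fun _ => h0, fun _ => hmod,
    fun i j hij => absurd (Subsingleton.elim i j) hij⟩ with h𝓔
  have hsep : Separated ({((), τ)} : Finset (Unit × ℝ)) := by
    intro x hx y hy _ _
    rw [Finset.mem_singleton] at hx hy
    rw [hx, hy]
  have hX' : ∀ σ : HeightOneSpectrum (𝓞 ℚ) → GK ℚ, (∀ v, IsFrob v (σ v)) →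
      ∀ x ∈ ({((), τ)} : Finset (Unit × ℝ)),
      SzH (TT (syE (cP (𝓔.a x.1)) (cQ (𝓔.b x.1)))) (fun v => ψ (σ v) * cz x.2 v)
        ((fun _ : Unit × ℝ => X) x) := by
    intro σ hσ x hx
    rw [Finset.mem_singleton] at hx
    subst hx
    exact hX σ hσ
  refine ⟨fun η hη => ?_, fun m hm => ?_⟩
  · have hη' : 0 < η ^ 2 / 5 := by positivity
    have e5 : Real.sqrt (5 * (η ^ 2 / 5)) = η := by
      rw [mul_div_cancel₀ _ (by norm_num : (5 : ℝ) ≠ 0)]
      exact Real.sqrt_sq hη.le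
    have hs : ∀ s : ℤˣ, ∀ᶠ ε : ℝ in 𝓝[>] 0, ((s : ℤ) : ℝ) * X ε ≤
        Real.sqrt (1 - 1 / Nat.card (GK ℚ ⧸ U)) + η := by
      intro s
      have h := sep U hU hψ 𝓔 {((), τ)} hsep (fun _ => X) s hX' hη'
      refine h.mono fun ε hε => ?_
      simp only [Finset.sum_singleton] at hε
      have h1 := one_bound' U ψ hψ.mul hN hg hη' (le_max_right _ _) hε
      rw [e5] at h1
      exact (le_max_left _ _).trans h1
    filter_upwards [hs 1, hs (-1)] with ε h1 h2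
    rw [abs_le]
    constructor
    · have : ((((-1 : ℤˣ) : ℤ) : ℝ)) * X ε = -X ε := by
        push_cast
        ring
      rw [this] at h2
      linarith
    · have : ((((1 : ℤˣ) : ℤ) : ℝ)) * X ε = X ε := by
        push_cast
        ring
      rwa [this] at h1
  · have hs : ∀ s : ℤˣ, (s : ℤ) * m ≤ 0 := by
      intro s
      have h := sep_lim U hU hψ 𝓔 {((), τ)} hsep (fun _ => X) s hX' (fun _ => m)
        (fun x _ => hm)
      have h1 := (integral_gain U ψ hψ.mul ({((), τ)} : Finset (Unit × ℝ))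
        (fun _ => (s : ℤ) * m) h (N := 1) (by rw [Nat.cast_one]; exact hN)).2
        ⟨g, by rw [Nat.cast_one]; linarith⟩
      rw [Finset.sum_singleton] at h1
      by_contra hcon
      push Not at hcon
      rw [max_eq_left hcon.le] at h1
      have hw : (1 : ℤ) ≤ (weight ((), τ).2 : ℤ) := by
        unfold weight
        split_ifs <;> norm_num
      have h2 : (1 : ℤ) ≤ (s : ℤ) * m := hcon
      push_cast at h1
      nlinarith
    have h1 := hs 1
    have h2 := hs (-1)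
    simp only [Units.val_one, Units.val_neg, one_mul, neg_mul] at h1 h2
    omega

section
variable {A : Combination ℚ} {U : Subgroup (GK ℚ)}

theorem char_psi (hK : A.IsKernel U) : Char U (psiR A) where
  mul σ u hu := psiR_mul hK σ u hu
  cnj σ ρ := psiR_conj σ ρ
  inv σ := psiR_inv σ
  le := ⟨_, psiR_le⟩

end

theorem sizeInequality : SizeInequality := by
  intro ι 𝓔 A M U _ hK s S hS η hη
  have hfin : Finite (GK ℚ ⧸ U) := Subgroup.quotient_finite_of_isOpen _ hK.1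
  have h := sep U hK.1 (char_psi hK) 𝓔 S hS (fun x => (M x.1).size x.2) s
    (fun σ hσ x _ => models_size (𝓔.disc x.1) (M x.1) σ hσ x.2) hη
  refine h.mono fun ε hε => ?_
  simp only [← weight_eq] at hε
  exact hε

theorem orderInequality : OrderInequality := by
  intro ι 𝓔 A M U _ hK s S hS m hm
  have hfin : Finite (GK ℚ ⧸ U) := Subgroup.quotient_finite_of_isOpen _ hK.1
  have h := sep_lim U hK.1 (char_psi hK) 𝓔 S hS (fun x => (M x.1).size x.2) s
    (fun σ hσ x _ => models_size (𝓔.disc x.1) (M x.1) σ hσ x.2) m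
    (fun x hx => models_lim (𝓔.disc x.1) (M x.1) (hm x hx))
  refine ⟨?_, fun N hN hg => ?_⟩
  · have h' := h
    simp only [← weight_eq] at h'
    exact h'
  · obtain ⟨g, hg⟩ := hg
    refine (integral_gain U (psiR A) (char_psi hK).mul S (fun x => (s : ℤ) * m x) h hN).2 ⟨g, ?_⟩
    have : |psiR A g| = ((|A.psi g| : ℤ) : ℝ) := by
      rw [Int.cast_abs]
      rfl
    rw [this]
    exact_mod_cast hg

theorem irreducibleCombinations : IrreducibleCombinations := by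
  intro a b h0 hmod A M U _ hK hN hg τ
  have hfin : Finite (GK ℚ ⧸ U) := Subgroup.quotient_finite_of_isOpen _ hK.1
  obtain ⟨g, hg⟩ := hg
  have hg' : 3 ≤ |psiR A g| := by
    have : |psiR A g| = ((|A.psi g| : ℤ) : ℝ) := by
      rw [Int.cast_abs]
      rfl
    rw [this]
    exact_mod_cast hg
  have h := single U hK.1 (char_psi hK) hN hg' h0 hmod τ (M.size τ)
    (fun σ hσ => models_size h0 M σ hσ τ)
  exact ⟨h.1, fun m hm => h.2 m (models_lim h0 M hm)⟩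

section
variable (K F : Type) [Field K] [NumberField K] [Field F] [NumberField F] [Algebra K F]

/-- the character of a number field minus the trivial character -/
noncomputable def psiF (g : GK K) : ℝ := (fixn K F g : ℝ) - 1

theorem psiF_one : psiF K F 1 = Module.finrank K F - 1 := by
  unfold psiF
  rw [fixn_at_one]

theorem rank_pos : 0 < rank K F := by
  unfold rank
  have : Nonempty (F →ₐ[K] AlgebraicClosure K) := inferInstance
  obtain ⟨i⟩ := this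
  have : Nonempty (Quotient (pairSetoid K F)) := ⟨Quotient.mk _ (i, i)⟩
  exact Nat.card_pos

end

theorem char_F (F : Type) [Field F] [NumberField F] [Algebra ℚ F] :
    Char (act ℚ F).ker (psiF ℚ F) where
  mul σ u hu := by
    unfold psiF
    rw [fixn_mul_ker ℚ F σ u hu]
  cnj σ ρ := by
    unfold psiF
    rw [fixn_conj]
  inv σ := by
    unfold psiF
    rw [fixn_inv]
  le := ⟨Nat.card (F →ₐ[ℚ] AlgebraicClosure ℚ) + 1, fun σ => by
    unfold psiF
    refine (abs_sub _ _).trans ?_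
    rw [abs_of_nonneg (Nat.cast_nonneg _), abs_one]
    have h1 : fixn ℚ F σ ≤ Nat.card (F →ₐ[ℚ] AlgebraicClosure ℚ) := Finite.card_subtype_le _
    have h2 : (fixn ℚ F σ : ℝ) ≤ Nat.card (F →ₐ[ℚ] AlgebraicClosure ℚ) := by exact_mod_cast h1
    linarith⟩

section
variable {a b : ℤ} (h0 : 4 * a ^ 3 + 27 * b ^ 2 ≠ 0) {F : Type} [Field F] [NumberField F]
  [Algebra ℚ F]

include h0 in
theorem base_size (B : BaseChange F (curve a b)) (σ : HeightOneSpectrum (𝓞 ℚ) → GK ℚ)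
    (hσ : ∀ v, IsFrob v (σ v)) (τ : ℝ) :
    SzH (TT (syE (cP a) (cQ b))) (fun v => psiF ℚ F (σ v) * cz τ v) (B.size τ) :=
  base_size' (E := curve a b) one_ne (coe_cP a b) (coe_cQ a b) (disc_ne h0) B σ hσ τ

include h0 in
theorem base_lim (B : BaseChange F (curve a b)) {τ : ℝ} {m : ℤ} (hm : B.Order τ m) :
    Tendsto (B.size τ) (𝓝[>] 0) (𝓝 (-(m : ℝ))) :=
  base_lim' (E := curve a b) one_ne (coe_cP a b) (coe_cQ a b) (disc_ne h0) B hm

/-- the inequality for the orders -/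
theorem base_ineq {ι : Type} (𝓔 : Family ι) (P : ∀ i, BaseChange F (curve (𝓔.a i) (𝓔.b i)))
    (s : ℤˣ) (S : Finset (ι × ℝ)) (hS : Separated S) (m : ι × ℝ → ℤ)
    (hm : ∀ y ∈ S, (P y.1).Order y.2 (m y)) :
    ∑ y ∈ S, (weight y.2 : ℤ) * (max ((s : ℤ) * m y) 0) ^ 2 ≤ rank ℚ F - 1 ∧
      (2 * rank ℚ F < Module.finrank ℚ F + 1 →
        ∑ y ∈ S, (weight y.2 : ℤ) * (max ((s : ℤ) * m y) 0) ^ 2 < rank ℚ F - 1) := by
  have hU := ker_act_open ℚ F
  have hfin : Finite (GK ℚ ⧸ (act ℚ F).ker) := Subgroup.quotient_finite_of_isOpen _ hU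
  have h := sep_lim (act ℚ F).ker hU (char_F F) 𝓔 S hS (fun x => (P x.1).size x.2) s
    (fun σ hσ x _ => base_size (𝓔.disc x.1) (P x.1) σ hσ x.2) m
    (fun x hx => base_lim (𝓔.disc x.1) (P x.1) (hm x hx))
  have hr := rank_pos ℚ F
  have hN : avR (act ℚ F).ker (fun q => (psiF ℚ F q.out) ^ 2) ≤ ((rank ℚ F - 1 : ℕ) : ℝ) := by
    have h1 := mean_sq ℚ F
    have h2 : ((rank ℚ F - 1 : ℕ) : ℝ) = (rank ℚ F : ℝ) - 1 := by
      rw [Nat.cast_sub hr, Nat.cast_one]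
    rw [h2]
    exact h1.le
  have hc : ((rank ℚ F - 1 : ℕ) : ℤ) = (rank ℚ F : ℤ) - 1 := by
    rw [Nat.cast_sub hr, Nat.cast_one]
  have h2 := integral_gain (act ℚ F).ker (psiF ℚ F) (char_F F).mul S (fun x => (s : ℤ) * m x) h hN
  rw [hc] at h2
  refine ⟨h2.1, fun hn => h2.2 ⟨1, ?_⟩⟩
  rw [psiF_one]
  have h3 : ((rank ℚ F - 1 : ℕ) : ℝ) = (rank ℚ F : ℝ) - 1 := by
    rw [Nat.cast_sub hr, Nat.cast_one]
  rw [h3]
  have h4 : (2 : ℝ) * rank ℚ F < Module.finrank ℚ F + 1 := by exact_mod_cast hn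
  have h5 := le_abs_self ((Module.finrank ℚ F : ℝ) - 1)
  linarith

theorem base_card {ι : Type} (𝓔 : Family ι) (P : ∀ i, BaseChange F (curve (𝓔.a i) (𝓔.b i)))
    (s : ℤˣ) (T : Finset ι)
    (hT : ∀ i ∈ T, ∃ (τ : ℝ) (m : ℤ), (P i).Order τ m ∧ 0 < (s : ℤ) * m) :
    T.card ≤ rank ℚ F - 1 := by
  classical
  have hT' : ∀ i : ι, ∃ x : ℝ × ℤ, i ∈ T → (P i).Order x.1 x.2 ∧ 0 < (s : ℤ) * x.2 := by
    intro i
    by_cases hi : i ∈ T
    · obtain ⟨τ, m, h⟩ := hT i hi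
      exact ⟨(τ, m), fun _ => h⟩
    · exact ⟨(0, 0), fun h => absurd h hi⟩
  choose f hf using hT'
  set S : Finset (ι × ℝ) := T.image fun i => (i, (f i).1) with hS
  have hsep : Separated S := by
    intro x hx y hy hxy _
    obtain ⟨i, hi, rfl⟩ := Finset.mem_image.1 hx
    obtain ⟨j, hj, rfl⟩ := Finset.mem_image.1 hy
    have : i = j := hxy
    rw [this]
  have h := (base_ineq 𝓔 P s S hsep (fun x => (f x.1).2) (fun y hy => by
    obtain ⟨i, hi, rfl⟩ := Finset.mem_image.1 hy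
    exact (hf i hi).1)).1
  have hinj : Set.InjOn (fun i => (i, (f i).1)) (T : Set ι) := by
    intro i _ j _ hij
    simp only [Prod.mk.injEq] at hij
    exact hij.1
  rw [hS, Finset.sum_image hinj] at h
  have h1 : ∀ i ∈ T, (1 : ℤ) ≤ (weight (i, (f i).1).2 : ℤ) *
      (max ((s : ℤ) * (f (i, (f i).1).1).2) 0) ^ 2 := by
    intro i hi
    have h2 : (1 : ℤ) ≤ (s : ℤ) * (f i).2 := (hf i hi).2
    have hw : (1 : ℤ) ≤ (weight (i, (f i).1).2 : ℤ) := by
      unfold weight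
      split_ifs <;> norm_num
    have h3 : (s : ℤ) * (f (i, (f i).1).1).2 = (s : ℤ) * (f i).2 := rfl
    rw [h3, max_eq_left (by linarith)]
    nlinarith [sq_nonneg ((s : ℤ) * (f i).2 - 1)]
  have h2 := Finset.sum_le_sum h1
  rw [Finset.sum_const, nsmul_eq_mul, mul_one] at h2
  have h3 := h2.trans h
  have hr := rank_pos ℚ F
  omega

end

theorem baseChangeInequality : BaseChangeInequality := by
  intro ι 𝓔 F _ _ P s
  refine ⟨fun S hS m hm => base_ineq 𝓔 P s S hS m hm, ?_⟩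
  have hfin : {i | ∃ (τ : ℝ) (m : ℤ), (P i).Order τ m ∧ 0 < (s : ℤ) * m}.Finite := by
    by_contra hcon
    obtain ⟨T, hT, hcard⟩ := Set.Infinite.exists_subset_card_eq hcon (rank ℚ F)
    have h1 := base_card 𝓔 P s T fun i hi => hT hi
    have hr := rank_pos ℚ F
    omega
  refine ⟨hfin, ?_⟩
  rw [Set.ncard_eq_toFinset_card _ hfin]
  exact base_card 𝓔 P s _ fun i hi => (hfin.mem_toFinset).1 hi

theorem doublyTransitiveBaseChange : DoublyTransitiveBaseChange := by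
  intro a b h0 hmod F _ _ hdt hn P τ
  have hU := ker_act_open ℚ F
  have hfin : Finite (GK ℚ ⧸ (act ℚ F).ker) := Subgroup.quotient_finite_of_isOpen _ hU
  have hN : avR (act ℚ F).ker (fun q => (psiF ℚ F q.out) ^ 2) ≤ 1 := by
    have h1 := mean_sq ℚ F
    have h2 : (rank ℚ F : ℝ) ≤ 2 := by exact_mod_cast rank_le_two ℚ F hdt
    have h3 : avR (act ℚ F).ker (fun q => (psiF ℚ F q.out) ^ 2) = rank ℚ F - 1 := h1
    rw [h3]
    linarith
  have hg : 3 ≤ |psiF ℚ F 1| := by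
    rw [psiF_one]
    have h4 : (4 : ℝ) ≤ Module.finrank ℚ F := by exact_mod_cast hn
    have h5 := le_abs_self ((Module.finrank ℚ F : ℝ) - 1)
    linarith
  have h := single (act ℚ F).ker hU (char_F F) hN hg h0 hmod τ (P.size τ)
    (fun σ hσ => base_size h0 P σ hσ τ)
  refine ⟨fun η hη => (h.1 η hη).mono fun ε hε => hε.trans ?_, fun m hm => h.2 m (base_lim h0 P hm)⟩
  have hc := card_ker ℚ F
  have hc1 : (1 : ℝ) ≤ Nat.card (GK ℚ ⧸ (act ℚ F).ker) := by exact_mod_cast Nat.card_pos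
  have hc2 : (Nat.card (GK ℚ ⧸ (act ℚ F).ker) : ℝ) ≤ (Module.finrank ℚ F).factorial := by
    exact_mod_cast hc
  have h1 := one_div_le_one_div_of_le (by linarith) hc2
  have h2 := Real.sqrt_le_sqrt (show 1 - 1 / (Nat.card (GK ℚ ⧸ (act ℚ F).ker) : ℝ) ≤
    1 - 1 / ((Module.finrank ℚ F).factorial : ℝ) by linarith)
  linarith

end Pool.Agent.E8helper14.RSE
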