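import Pool.Agent.E8helper14.RSE.Core
import Pool.Agent.E8helper14.RSE.Defs
import Pool.Agent.TH322.BC.Main

/-! The inequality for combinations, and consequences of integrality. -/

set_option autoImplicit false
set_option linter.unusedSectionVars false

namespace Pool.Agent.E8helper14.RSE

open Complex Filter Topology ComplexConjugate NumberField IsDedekindDomain Asymptotics
  Pool.Agent.W401.Cheb Pool.Agent.W540.BE Pool.Agent.W353.L1 Pool.Agent.W353.NF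
  Pool.Agent.TH322.BC
open Pool.Agent.W353.EF (perm)
open Pool.Agent.W353.TP (HX sysH LL)
open Pool.Agent.W353.AB (Sy syE)
open Pool.Agent.H341R2 (lam lam_tendsto)
open Pool.Agent.Y722.EP (IsModular NotIsogenous rE abs_rE)
open Pool.Agent.TH322.BC.Edge (MinimalModels LSeries HasOrder character LimsupLE twist TwistOver
  size_twist size_base character_eq syE_D coe_ne orders)

theorem curve_eq (a b : ℤ) : curve a b = cv a b := rfl

theorem mean_eq (U : Subgroup (GK ℚ)) (f : GK ℚ ⧸ U → ℝ) : mean U f = avR U f := rfl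

theorem weight_eq (τ : ℝ) : ((weight τ : ℕ) : ℝ) = wt τ := by
  classical
  unfold weight wt
  split_ifs <;> norm_num

theorem one_ne : (1 : 𝓞 ℚ) ≠ 0 := one_ne_zero

section
variable {K : Type} [Field K] [NumberField K] {A : Combination K}

/-- the real valued character -/
noncomputable def psiR (A : Combination K) (g : GK K) : ℝ := (A.psi g : ℝ)

theorem psiR_eq (g : GK K) :
    psiR A g = ∑ k, (A.c k : ℝ) * (chi K (A.D k : A.F k) g : ℝ) := by
  unfold psiR Combination.psi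
  push_cast
  refine Finset.sum_congr rfl fun k _ => ?_
  rw [character_eq (coe_ne (A.D_ne_zero k))]

theorem psiR_conj (g r : GK K) : psiR A (r * g * r⁻¹) = psiR A g := by
  rw [psiR_eq, psiR_eq]
  exact Finset.sum_congr rfl fun k _ => by rw [chi_conj (coe_ne (A.D_ne_zero k))]

theorem psiR_inv (g : GK K) : psiR A g⁻¹ = psiR A g := by
  rw [psiR_eq, psiR_eq]
  exact Finset.sum_congr rfl fun k _ => by rw [chi_inv (coe_ne (A.D_ne_zero k))]

theorem psiR_mul {U : Subgroup (GK K)} (hU : A.IsKernel U) (g u : GK K) (hu : u ∈ U) :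
    psiR A (g * u) = psiR A g := by
  rw [psiR_eq, psiR_eq]
  exact Finset.sum_congr rfl fun k _ => by
    rw [chi_mul_ker (coe_ne (A.D_ne_zero k)) g u (hU.2 k u hu).1 (hU.2 k u hu).2]

theorem psiR_le (g : GK K) :
    |psiR A g| ≤ ∑ k, |(A.c k : ℝ)| * (Module.finrank ℚ (A.F k) : ℝ) := by
  rw [psiR_eq]
  refine (Finset.abs_sum_le_sum_abs _ _).trans (Finset.sum_le_sum fun k _ => ?_)
  rw [abs_mul]
  exact mul_le_mul_of_nonneg_left (abs_chi_le _ _) (abs_nonneg _)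

variable {E : WeierstrassCurve K} {l P Q : 𝓞 K} (hl : l ≠ 0)
    (hP : (P : K) = (l : K) ^ 4 * E.c₄) (hQ : (Q : K) = (l : K) ^ 6 * E.c₆)
    (hD : P ^ 3 - Q ^ 2 ≠ 0)

include hl hP hQ hD in
/-- the sizes of a combination -/
theorem models_size' (M : A.Models E) (σ : HeightOneSpectrum (𝓞 K) → GK K)
    (hσ : ∀ v, IsFrob v (σ v)) (τ : ℝ) :
    SzH (TT (syE P Q)) (fun v => psiR A (σ v) * cz τ v) (M.size τ) := by
  classical
  have hX : ∀ k, (∀ᶠ ε : ℝ in 𝓝[>] 0, LSeries (M.V k) (3 / 2 + τ * Complex.I + ε) ≠ 0) ∧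
      (syE P Q).IsSize (F := A.F k) (fun _ => A.D k) τ
        (Pool.Agent.TH322.BC.Edge.size (M.V k) τ) := fun k =>
    size_twist (E := E) hl hP hQ hD
      (⟨A.D k, A.D_ne_zero k, M.V k, M.minimal k⟩ : TwistOver E (A.F k)) τ
  have h1 := SzH.sum Finset.univ (fun k _ => size_chi (syE P Q) (syE_real _ _)
    (A.D_ne_zero k) (syE_D P Q (A.D k)) σ hσ (hX k).2)
    (abs_TT (syE P Q)) (B := fun k => (Module.finrank ℚ (A.F k) : ℝ)) (fun k _ v => by
      rw [abs_mul]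
      calc |(chi K (A.D k : A.F k) (σ v) : ℝ)| * |cz τ v| ≤ (Module.finrank ℚ (A.F k) : ℝ) * 1 :=
            mul_le_mul (abs_chi_le _ _) (abs_cz _ _) (abs_nonneg _) (by positivity)
        _ = _ := mul_one _) fun k => (A.c k : ℝ)
  refine h1.congr (fun v => ?_) fun ε => rfl
  rw [psiR_eq, Finset.sum_mul]
  exact Finset.sum_congr rfl fun k _ => by ring

include hl hP hQ hD in
/-- limits of the sizes -/
theorem models_lim' (M : A.Models E) {τ : ℝ} {m : ℤ} (hm : M.Order τ m) :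
    Tendsto (M.size τ) (𝓝[>] 0) (𝓝 (-(m : ℝ))) := by
  obtain ⟨n, hn, hmn⟩ := hm
  have h1 : ∀ k, Tendsto (Pool.Agent.TH322.BC.Edge.size (M.V k) τ) (𝓝[>] 0)
      (𝓝 (-((n k : ℤ) : ℝ))) := fun k =>
    orders (size_twist (E := E) hl hP hQ hD
      (⟨A.D k, A.D_ne_zero k, M.V k, M.minimal k⟩ : TwistOver E (A.F k)) τ).1 (hn k)
  have h2 : Tendsto (fun ε => ∑ k, (A.c k : ℝ) * Pool.Agent.TH322.BC.Edge.size (M.V k) τ ε)
      (𝓝[>] 0) (𝓝 (∑ k, (A.c k : ℝ) * (-((n k : ℤ) : ℝ)))) :=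
    tendsto_finsetSum _ fun k _ => (h1 k).const_mul _
  have e : ∑ k, (A.c k : ℝ) * (-((n k : ℤ) : ℝ)) = -(m : ℝ) := by
    rw [hmn]
    push_cast
    rw [← Finset.sum_neg_distrib]
    exact Finset.sum_congr rfl fun k _ => by ring
  rw [e] at h2
  exact h2

end

section
variable {A : Combination ℚ} {a b : ℤ} (h0 : 4 * a ^ 3 + 27 * b ^ 2 ≠ 0)

include h0 in
theorem models_size (M : A.Models (curve a b)) (σ : HeightOneSpectrum (𝓞 ℚ) → GK ℚ)
    (hσ : ∀ v, IsFrob v (σ v)) (τ : ℝ) :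
    SzH (TT (syE (cP a) (cQ b))) (fun v => psiR A (σ v) * cz τ v) (M.size τ) :=
  models_size' (E := curve a b) one_ne (coe_cP a b) (coe_cQ a b) (disc_ne h0) M σ hσ τ

include h0 in
theorem models_lim (M : A.Models (curve a b)) {τ : ℝ} {m : ℤ} (hm : M.Order τ m) :
    Tendsto (M.size τ) (𝓝[>] 0) (𝓝 (-(m : ℝ))) :=
  models_lim' (E := curve a b) one_ne (coe_cP a b) (coe_cQ a b) (disc_ne h0) M hm

end

theorem SzH_neg {K : Type} [Field K] [NumberField K] {T : HX K → ℝ}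
    {ψ : GK K → ℝ} {σ : HeightOneSpectrum (𝓞 K) → GK K} {τ : ℝ} {X : ℝ → ℝ}
    (h : SzH T (fun v => ψ (σ v) * cz τ v) X) :
    SzH T (fun v => (-ψ (σ v)) * cz τ v) (fun ε => -X ε) := by
  have h1 := h.const_mul (-1)
  exact h1.congr (fun v => by ring) fun ε => by ring

/-- the mean value and one value -/
theorem avR_single (U : Subgroup (GK ℚ)) [Finite (GK ℚ ⧸ U)] {f : GK ℚ ⧸ U → ℝ}
    (h : ∀ q, 0 ≤ f q) (q : GK ℚ ⧸ U) : f q / Nat.card (GK ℚ ⧸ U) ≤ avR U f := by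
  classical
  let _ : Fintype (GK ℚ ⧸ U) := Fintype.ofFinite _
  unfold avR
  rw [finsum_eq_sum_of_fintype, div_eq_inv_mul]
  exact mul_le_mul_of_nonneg_left (Finset.single_le_sum (fun q _ => h q) (Finset.mem_univ q))
    (by positivity)

/-- **Integrality.** -/
theorem integral_gain (U : Subgroup (GK ℚ)) [Finite (GK ℚ ⧸ U)] (ψ : GK ℚ → ℝ)
    (hψU : ∀ σ, ∀ u ∈ U, ψ (σ * u) = ψ σ) {ι : Type*} (S : Finset (ι × ℝ)) (m : ι × ℝ → ℤ)
    (h : ∑ x ∈ S, wt x.2 * (max (m x : ℝ) 0) ^ 2 +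
      avR U (fun q => (max (|ψ q.out| - 2 * ∑ x ∈ S, wt x.2 * max (m x : ℝ) 0) 0) ^ 2) ≤
      avR U (fun q => (ψ q.out) ^ 2)) {N : ℕ} (hN : avR U (fun q => (ψ q.out) ^ 2) ≤ N) :
    ∑ x ∈ S, (weight x.2 : ℤ) * (max (m x) 0) ^ 2 ≤ N ∧
    ((∃ g : GK ℚ, 2 * N < |ψ g|) → ∑ x ∈ S, (weight x.2 : ℤ) * (max (m x) 0) ^ 2 < N) := by
  have e1 : ∑ x ∈ S, wt x.2 * (max (m x : ℝ) 0) ^ 2 =
      ((∑ x ∈ S, (weight x.2 : ℤ) * (max (m x) 0) ^ 2 : ℤ) : ℝ) := by
    push_cast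
    exact Finset.sum_congr rfl fun x _ => by rw [weight_eq]
  have hn : 0 ≤ avR U (fun q =>
      (max (|ψ q.out| - 2 * ∑ x ∈ S, wt x.2 * max (m x : ℝ) 0) 0) ^ 2) :=
    avR_nonneg U fun q => sq_nonneg _
  refine ⟨?_, fun ⟨g, hg⟩ => ?_⟩
  · have h2 : ((∑ x ∈ S, (weight x.2 : ℤ) * (max (m x) 0) ^ 2 : ℤ) : ℝ) ≤ ((N : ℤ) : ℝ) := by
      rw [← e1]
      push_cast
      linarith
    exact_mod_cast h2
  · by_contra hcon
    push Not at hcon
    have h2 : ((N : ℤ) : ℝ) ≤ ((∑ x ∈ S, (weight x.2 : ℤ) * (max (m x) 0) ^ 2 : ℤ) : ℝ) := by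
      exact_mod_cast hcon
    rw [← e1] at h2
    push_cast at h2
    have hW : ∑ x ∈ S, wt x.2 * max (m x : ℝ) 0 ≤ ∑ x ∈ S, wt x.2 * (max (m x : ℝ) 0) ^ 2 := by
      refine Finset.sum_le_sum fun x _ => mul_le_mul_of_nonneg_left ?_ (wt_pos _).le
      rcases le_or_gt (m x) 0 with h3 | h3
      · have h4 : (m x : ℝ) ≤ 0 := by exact_mod_cast h3
        rw [max_eq_right h4]
        norm_num
      · have h4 : (1 : ℝ) ≤ m x := by exact_mod_cast h3
        rw [max_eq_left (by linarith)]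
        nlinarith
    have hW2 : ∑ x ∈ S, wt x.2 * max (m x : ℝ) 0 ≤ N := by linarith
    have h5 := avR_single U (f := fun q =>
      (max (|ψ q.out| - 2 * ∑ x ∈ S, wt x.2 * max (m x : ℝ) 0) 0) ^ 2) (fun q => sq_nonneg _)
      (QuotientGroup.mk g)
    have h6 : ψ (QuotientGroup.mk g : GK ℚ ⧸ U).out = ψ g := out_eq hψU rfl
    beta_reduce at h5
    rw [h6] at h5
    have h7 : 0 < |ψ g| - 2 * ∑ x ∈ S, wt x.2 * max (m x : ℝ) 0 := by linarith
    rw [max_eq_left h7.le] at h5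
    have h8 : 0 < (|ψ g| - 2 * ∑ x ∈ S, wt x.2 * max (m x : ℝ) 0) ^ 2 /
        Nat.card (GK ℚ ⧸ U) := by
      have : (0 : ℝ) < Nat.card (GK ℚ ⧸ U) := by exact_mod_cast Nat.card_pos
      positivity
    linarith

/-- the bound for one size -/
theorem one_bound (U : Subgroup (GK ℚ)) [Finite (GK ℚ ⧸ U)] (ψ : GK ℚ → ℝ)
    (hψU : ∀ σ, ∀ u ∈ U, ψ (σ * u) = ψ σ) (hN : avR U (fun q => (ψ q.out) ^ 2) ≤ 1)
    {g : GK ℚ} (hg : 3 ≤ |ψ g|) {x η : ℝ} (hη : 0 < η) (hx : 0 ≤ x)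
    (h : x ^ 2 + avR U (fun q => (max (|ψ q.out| - 2 * x) 0) ^ 2) ≤
      avR U (fun q => (ψ q.out) ^ 2) + η) :
    x ≤ Real.sqrt (1 - 1 / Nat.card (GK ℚ ⧸ U)) + Real.sqrt (5 * η) := by
  set c : ℝ := 1 / Nat.card (GK ℚ ⧸ U) with hc
  have hcard : (1 : ℝ) ≤ Nat.card (GK ℚ ⧸ U) := by exact_mod_cast Nat.card_pos
  have hc0 : 0 < c := by positivity
  have hc1 : c ≤ 1 := by
    rw [hc, div_le_one (by linarith)]
    exact hcard
  have h5 := avR_single U (f := fun q => (max (|ψ q.out| - 2 * x) 0) ^ 2) (fun q => sq_nonneg _)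
    (QuotientGroup.mk g)
  have h6 : ψ (QuotientGroup.mk g : GK ℚ ⧸ U).out = ψ g := out_eq hψU rfl
  beta_reduce at h5
  rw [h6] at h5
  have h7 : (max (|ψ g| - 2 * x) 0) ^ 2 * c ≤ avR U (fun q => (max (|ψ q.out| - 2 * x) 0) ^ 2) := by
    rw [hc, mul_one_div]
    exact h5
  have h8 : (max (3 - 2 * x) 0) ^ 2 ≤ (max (|ψ g| - 2 * x) 0) ^ 2 :=
    pow_le_pow_left₀ (le_max_right _ _) (max_le_max (by linarith) le_rfl) 2
  have h9 : (max (3 - 2 * x) 0) ^ 2 * c ≤ (max (|ψ g| - 2 * x) 0) ^ 2 * c :=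
    mul_le_mul_of_nonneg_right h8 hc0.le
  have h10 : x ^ 2 + (max (3 - 2 * x) 0) ^ 2 * c ≤ 1 + η := by linarith
  have h11 : x ^ 2 ≤ 1 - c + 5 * η := by
    rcases le_or_gt x 1 with hx1 | hx1
    · have h12 : 1 ≤ max (3 - 2 * x) 0 := le_max_of_le_left (by linarith)
      have h13 : 1 ≤ (max (3 - 2 * x) 0) ^ 2 := one_le_pow₀ h12
      nlinarith
    · have h12 : x ^ 2 ≤ 1 + η := by
        have : 0 ≤ (max (3 - 2 * x) 0) ^ 2 * c := by positivity
        linarith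
      have h13 : x ≤ 1 + η := by nlinarith
      rcases le_or_gt (3 - 2 * x) 0 with h14 | h14
      · -- then `η ≥ 1/2`
        have : 1 / 2 ≤ η := by linarith
        nlinarith
      · rw [max_eq_left h14.le] at h10
        have h15 : 1 - 2 * η ≤ 3 - 2 * x := by linarith
        have h16 : 1 - 4 * η ≤ (3 - 2 * x) ^ 2 := by nlinarith [sq_nonneg (3 - 2 * x - 1)]
        have h17 := mul_le_mul_of_nonneg_right h16 hc0.le
        nlinarith
  have h12 : x ≤ Real.sqrt (1 - c + 5 * η) := Real.le_sqrt_of_sq_le h11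
  refine h12.trans ?_
  have hs := Real.sqrt_nonneg (1 - c)
  have hs' := Real.sqrt_nonneg (5 * η)
  refine Real.sqrt_le_iff.2 ⟨by positivity, ?_⟩
  have e1 := Real.sq_sqrt (show 0 ≤ 1 - c by linarith)
  have e2 := Real.sq_sqrt (show 0 ≤ 5 * η by positivity)
  nlinarith [mul_nonneg hs hs']

end Pool.Agent.E8helper14.RSE
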