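import Pool.Agent.TH322.BC.Mean
import Pool.Agent.Y149.CR.Bes

/-! Densities of the values of a class function at the Frobenius elements. -/

set_option autoImplicit false

namespace Pool.Agent.E8helper14.RSE

open Complex Filter Topology ComplexConjugate NumberField IsDedekindDomain Asymptotics
  Pool.Agent.W401.Cheb Pool.Agent.W540.BE Pool.Agent.W353.L1 Pool.Agent.W353.NF
  Pool.Agent.TH322.BC
open Pool.Agent.W353.TP (HX sysH LL LL_tendsto E_H bdd_isLittleO lam0_sub)
open Pool.Agent.H341R2 (lam lam_tendsto sysK)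

section
variable {K : Type} [Field K] [NumberField K]

open Classical in
/-- the density of a value -/
noncomputable def dens (U : Subgroup (GK K)) (ψ : GK K → ℝ) (y : ℝ) : ℝ :=
  avR U fun q => if |ψ q.out| = y then (1 : ℝ) else 0

/-- the absolute values of the values -/
noncomputable def vals (U : Subgroup (GK K)) [Finite (GK K ⧸ U)] (ψ : GK K → ℝ) : Finset ℝ :=
  (Set.finite_range (fun q : GK K ⧸ U => |ψ q.out|)).toFinset

theorem mem_vals {U : Subgroup (GK K)} [Finite (GK K ⧸ U)] {ψ : GK K → ℝ}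
    (hψ : ∀ g, ∀ u ∈ U, ψ (g * u) = ψ g) (g : GK K) : |ψ g| ∈ vals U ψ := by
  unfold vals
  rw [Set.Finite.mem_toFinset]
  refine ⟨(QuotientGroup.mk g : GK K ⧸ U), ?_⟩
  have h : ψ (QuotientGroup.mk g : GK K ⧸ U).out = ψ g := out_eq hψ rfl
  beta_reduce
  rw [h]

theorem vals_nonneg {U : Subgroup (GK K)} [Finite (GK K ⧸ U)] {ψ : GK K → ℝ} {y : ℝ}
    (hy : y ∈ vals U ψ) : 0 ≤ y := by
  unfold vals at hy
  rw [Set.Finite.mem_toFinset] at hy
  obtain ⟨q, rfl⟩ := hy
  exact abs_nonneg _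

theorem dens_sum (U : Subgroup (GK K)) [Finite (GK K ⧸ U)] (ψ : GK K → ℝ) (g : ℝ → ℝ) :
    ∑ y ∈ vals U ψ, dens U ψ y * g y = avR U fun q => g |ψ q.out| := by
  classical
  have h1 : ∀ y ∈ vals U ψ, dens U ψ y * g y =
      avR U fun q => g y * if |ψ q.out| = y then (1 : ℝ) else 0 := by
    intro y _
    unfold dens
    rw [avR_const_mul]
    ring
  rw [Finset.sum_congr rfl h1, ← avR_sum]
  congr 1
  funext q
  rw [Finset.sum_eq_single |ψ q.out|]
  · rw [if_pos rfl, mul_one]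
  · intro y _ hy
    rw [if_neg (Ne.symm hy), mul_zero]
  · intro h
    refine absurd ?_ h
    unfold vals
    rw [Set.Finite.mem_toFinset]
    exact ⟨q, rfl⟩

open Classical in
theorem dens_lim (U : Subgroup (GK K)) [U.Normal] (hU : IsOpen (U : Set (GK K)))
    [Finite (GK K ⧸ U)] (ψ : GK K → ℝ)
    (hψU : ∀ σ, ∀ u ∈ U, ψ (σ * u) = ψ σ) (hc : ∀ σ ρ, ψ (ρ * σ * ρ⁻¹) = ψ σ)
    (hi : ∀ σ, ψ σ⁻¹ = ψ σ) (σ : HeightOneSpectrum (𝓞 K) → GK K) (hσ : ∀ v, IsFrob v (σ v))
    (y : ℝ) :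
    Tendsto (fun ε : ℝ => EP (nm K) ε (fun v => if |ψ (σ v)| = y then (1 : ℝ) else 0) / lam ε)
      (𝓝[>] 0) (𝓝 (dens U ψ y)) := by
  have h := real_mean U hU (fun g => if |ψ g| = y then (1 : ℝ) else 0)
    (fun g u hu => by rw [hψU g u hu]) (fun g r => by rw [hc g r]) (fun g => by rw [hi g]) σ hσ 0
  have e0 : kap 0 = 1 := by
    unfold kap
    rw [if_pos rfl]
  have e1 : ∀ v : HeightOneSpectrum (𝓞 K), cz 0 v = 1 := by
    intro v
    unfold cz zz
    simp
  rw [e0, one_mul] at h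
  have e2 : (fun q : GK K ⧸ U => |(if |ψ q.out| = y then (1 : ℝ) else 0)|) =
      fun q : GK K ⧸ U => if |ψ q.out| = y then (1 : ℝ) else 0 := by
    funext q
    split_ifs <;> simp
  rw [e2] at h
  unfold dens
  refine h.congr fun ε => ?_
  congr 2
  funext v
  rw [e1, mul_one]
  split_ifs <;> simp

/-- **Sizes as mean values over the primes.** -/
theorem lim_of_SzH {T : HX K → ℝ} {Ψ : HeightOneSpectrum (𝓞 K) → ℝ} {X : ℝ → ℝ}
    {r : HeightOneSpectrum (𝓞 K) → ℝ} (S : Finset (HeightOneSpectrum (𝓞 K))) {N B : ℝ}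
    (hN : 0 ≤ N) (hT : ∀ x, |T x| ≤ N) (hr : ∀ v, |r v| ≤ N) (hB : ∀ v, |Ψ v| ≤ B)
    (hTr : ∀ x, vx x ∉ S → T x = r (vx x)) (h : SzH T Ψ X) :
    Tendsto (fun ε : ℝ => (EP (nm K) ε fun v => r v * Ψ v) / lam ε - X ε) (𝓝[>] 0) (𝓝 0) := by
  classical
  have hB0 : 0 ≤ B := (abs_nonneg _).trans (hB (vx ((sysH K).nonempty.some)))
  have hrΨ : ∀ v, |r v * Ψ v| ≤ N * B := fun v => by
    rw [abs_mul]
    exact mul_le_mul (hr v) (hB v) (abs_nonneg _) hN
  have hTΨ : ∀ x : HX K, |T x * Ψ (vx x)| ≤ N * B := fun x => by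
    rw [abs_mul]
    exact mul_le_mul (hT x) (hB _) (abs_nonneg _) hN
  -- the difference
  obtain ⟨C, hC⟩ := EH_le (K := K) (φ := fun x => r (vx x) * Ψ (vx x) - T x * Ψ (vx x))
    (g := fun v => (2 * (N * B)) * (if v ∈ S then 1 else 0)) (B := 2 * (N * B))
    (fun v => by
      split_ifs
      · rw [mul_one, abs_of_nonneg (by positivity)]
      · rw [mul_zero, abs_zero]; positivity) (fun x => by
      beta_reduce
      by_cases hx : vx x ∈ S
      · rw [if_pos hx, mul_one]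
        refine (abs_sub _ _).trans ?_
        have := hrΨ (vx x)
        have := hTΨ x
        linarith
      · rw [if_neg hx, hTr x hx, sub_self, abs_zero, mul_zero])
  have hEP : ∀ ε : ℝ, 0 < ε → EP (nm K) ε (fun v => (2 * (N * B)) * (if v ∈ S then 1 else 0)) ≤
      S.card * (2 * (N * B)) := by
    intro ε hε
    refine (le_abs_self _).trans (EP_finsupp normSys S _ (fun v hv => ?_) _ (fun v => ?_) hε)
    · rw [if_neg hv, mul_zero]
    · split_ifs
      · rw [mul_one, abs_of_nonneg (by positivity)]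
      · rw [mul_zero, abs_zero]; positivity
  have o1 : (fun ε => (EP (nm K) ε fun v => r v * Ψ v) -
      (sysH K).E ε (fun x => T x * Ψ (vx x))) =o[𝓝[>] 0] LL := by
    refine bdd_isLittleO ⟨N * B * Module.finrank ℚ K * Pool.Agent.H921R2.TatePole.C0 +
      (S.card * (2 * (N * B)) + C), ?_⟩
    filter_upwards [self_mem_nhdsWithin] with ε hε
    have hε' : (0 : ℝ) < ε := hε
    have h1 := hC ε hε
    have h2 := hEP ε hε
    have h3 := E_H (K := K) hrΨ hε'
    have e5 := (sysH K).E_add hε' (φ := fun x : HX K => r (vx x) * Ψ (vx x))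
      (ψ := fun x : HX K => (-1 : ℝ) * (T x * Ψ (vx x))) (B := N * B) (B' := N * B)
      (fun x => hrΨ _) (fun x => by
        rw [abs_mul, abs_neg, abs_one, one_mul]
        exact hTΨ x)
    have e5' : (sysH K).E ε (fun x : HX K => (-1 : ℝ) * (T x * Ψ (vx x))) =
        (-1) * (sysH K).E ε (fun x : HX K => T x * Ψ (vx x)) := (sysH K).E_const_mul _ _
    rw [e5'] at e5
    have e6 : (fun x : HX K => r (vx x) * Ψ (vx x) - T x * Ψ (vx x)) =
        fun x : HX K => r (vx x) * Ψ (vx x) + (-1 : ℝ) * (T x * Ψ (vx x)) := by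
      funext x
      ring
    have e7 : (sysH K).E ε (fun x : HX K => r (vx x) * Ψ (vx x) - T x * Ψ (vx x)) =
        (sysH K).E ε (fun x : HX K => r (vx x) * Ψ (vx x)) -
        (sysH K).E ε (fun x : HX K => T x * Ψ (vx x)) :=
      (congrArg ((sysH K).E ε) e6).trans (e5.trans (by ring))
    rw [e7] at h1
    have h4 : |(sysK K).E ε (fun v => r v * Ψ v) -
        (sysH K).E ε (fun x : HX K => r (vx x) * Ψ (vx x))| ≤
        N * B * Module.finrank ℚ K * Pool.Agent.H921R2.TatePole.C0 := h3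
    rw [EP_eq]
    have e8 : (sysK K).E ε (fun v => r v * Ψ v) - (sysH K).E ε (fun x => T x * Ψ (vx x)) =
        ((sysK K).E ε (fun v => r v * Ψ v) -
          (sysH K).E ε (fun x : HX K => r (vx x) * Ψ (vx x))) +
        ((sysH K).E ε (fun x : HX K => r (vx x) * Ψ (vx x)) -
          (sysH K).E ε (fun x : HX K => T x * Ψ (vx x))) := (sub_add_sub_cancel _ _ _).symm
    exact (le_of_eq (congrArg abs e8)).trans
      ((abs_add_le _ _).trans (add_le_add h4 (h1.trans (add_le_add h2 le_rfl))))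
  have o2 : (fun ε => (EP (nm K) ε fun v => r v * Ψ v) - X ε * LL ε) =o[𝓝[>] 0] LL := by
    unfold SzH at h
    refine (o1.sub h).congr' ?_ (EventuallyEq.refl _ _)
    filter_upwards with ε
    ring
  -- boundedness of the sizes
  have hone := EP_one K
  have hEb : ∀ᶠ ε : ℝ in 𝓝[>] 0, |EP (nm K) ε fun v => r v * Ψ v| ≤ (N * B) * (2 * lam ε) := by
    filter_upwards [hone.eventually_lt_const (by norm_num : (1 : ℝ) < 2),
      lam_tendsto.eventually_gt_atTop 0, self_mem_nhdsWithin] with ε h1 h2 h3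
    have hε : (0 : ℝ) < ε := h3
    rw [div_lt_iff₀ h2] at h1
    refine (Pool.Agent.Y149.CR.abs_EP_le normSys hε hrΨ).trans ?_
    exact mul_le_mul_of_nonneg_left h1.le (by positivity)
  rw [Metric.tendsto_nhds]
  intro δ hδ
  have h2 := isLittleO_iff.1 o2 (c := min 1 (δ / 8)) (by positivity)
  set M : ℝ := 4 * (N * B) + 2 with hM
  have hM0 : 0 < M := by positivity
  have h3 := isLittleO_iff.1 (lam0_sub) (c := min (1 / 2) (δ / (8 * M))) (by positivity)
  filter_upwards [h2, h3, hEb, LL_tendsto.eventually_gt_atTop 0,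
    lam_tendsto.eventually_gt_atTop 0] with ε g2 g3 g4 g5 g6
  rw [Real.norm_eq_abs, Real.norm_eq_abs, abs_of_pos g5] at g2 g3
  rw [Real.dist_eq, sub_zero]
  set A := EP (nm K) ε fun v => r v * Ψ v with hA
  have k1 : |lam ε - LL ε| ≤ 1 / 2 * LL ε :=
    g3.trans (mul_le_mul_of_nonneg_right (min_le_left _ _) g5.le)
  have k2 : |lam ε - LL ε| ≤ δ / (8 * M) * LL ε :=
    g3.trans (mul_le_mul_of_nonneg_right (min_le_right _ _) g5.le)
  have k3 : LL ε ≤ 2 * lam ε := by
    have := (abs_le.1 k1).1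
    linarith
  have k4 : lam ε ≤ 2 * LL ε := by
    have := (abs_le.1 k1).2
    linarith
  have k5 : |X ε| ≤ M := by
    have q1 : |X ε * LL ε| ≤ |A| + LL ε := by
      have := g2.trans (mul_le_mul_of_nonneg_right (min_le_left _ _) g5.le)
      have q2 := abs_sub_abs_le_abs_sub (X ε * LL ε) A
      rw [abs_sub_comm] at q2
      linarith
    rw [abs_mul, abs_of_pos g5] at q1
    have q3 : |A| ≤ 4 * (N * B) * LL ε := by
      refine g4.trans ?_
      have := mul_le_mul_of_nonneg_left k4 (by positivity : 0 ≤ (N * B) * 2)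
      linarith
    have q4 : |X ε| * LL ε ≤ (4 * (N * B) + 1) * LL ε := by linarith
    have := le_of_mul_le_mul_right q4 g5
    linarith
  have k6 : |A - X ε * lam ε| ≤ (δ / 2) * lam ε := by
    have q1 : A - X ε * lam ε = (A - X ε * LL ε) + X ε * (LL ε - lam ε) := by ring
    rw [q1]
    refine (abs_add_le _ _).trans ?_
    have q2 : |A - X ε * LL ε| ≤ δ / 8 * LL ε :=
      g2.trans (mul_le_mul_of_nonneg_right (min_le_right _ _) g5.le)
    have q3 : |X ε * (LL ε - lam ε)| ≤ M * (δ / (8 * M) * LL ε) := by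
      rw [abs_mul, abs_sub_comm]
      exact mul_le_mul k5 k2 (abs_nonneg _) hM0.le
    have q4 : M * (δ / (8 * M) * LL ε) = δ / 8 * LL ε := by
      field_simp
    rw [q4] at q3
    have q5 := mul_le_mul_of_nonneg_left k3 (by positivity : 0 ≤ δ / 8)
    linarith
  have k7 : A / lam ε - X ε = (A - X ε * lam ε) / lam ε := by
    field_simp
  rw [k7, abs_div, abs_of_pos g6, div_lt_iff₀ g6]
  have : δ / 2 * lam ε < δ * lam ε := mul_lt_mul_of_pos_right (by linarith) g6
  exact lt_of_le_of_lt k6 this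

end

end Pool.Agent.E8helper14.RSE
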